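import Mathlib

set_option autoImplicit false
set_option linter.style.haveILetI false

/-!
# MP_3218de_al: polynomial functions on groups
-/

namespace Pool.Agent.HL3218

/-- polynomial functions of degree `< m` modulo `J` -/
def Pol {Γ V : Type} [Group Γ] [AddCommGroup V] (J : AddSubgroup V) : ℕ → (Γ → V) → Prop
  | 0, Θ => ∀ x, Θ x ∈ J
  | m + 1, Θ => ∀ y, Pol J m (fun x => Θ (x * y) - Θ x)

namespace Pol

variable {Γ V : Type} [Group Γ] [AddCommGroup V] {J : AddSubgroup V}

theorem congr {m : ℕ} {Θ Θ' : Γ → V} (h : Pol J m Θ) (e : ∀ x, Θ' x = Θ x) : Pol J m Θ' := by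
  have : Θ' = Θ := funext e
  rw [this]; exact h

theorem succ : ∀ {m : ℕ} {Θ : Γ → V}, Pol J m Θ → Pol J (m + 1) Θ
  | 0, _, h => fun _ _ => J.sub_mem (h _) (h _)
  | _ + 1, _, h => fun y => succ (h y)

theorem mono {m m' : ℕ} (hm : m ≤ m') {Θ : Γ → V} (h : Pol J m Θ) : Pol J m' Θ := by
  induction hm with
  | refl => exact h
  | step _ ih => exact succ ih

theorem add : ∀ {m : ℕ} {Θ Θ' : Γ → V}, Pol J m Θ → Pol J m Θ' → Pol J m (fun x => Θ x + Θ' x)
  | 0, _, _, h, h' => fun x => J.add_mem (h x) (h' x)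
  | m + 1, _, _, h, h' => fun y => congr (add (h y) (h' y)) (fun x => by beta_reduce; abel)

theorem neg : ∀ {m : ℕ} {Θ : Γ → V}, Pol J m Θ → Pol J m (fun x => - Θ x)
  | 0, _, h => fun x => J.neg_mem (h x)
  | m + 1, _, h => fun y => congr (neg (h y)) (fun x => by beta_reduce; abel)

theorem sub {m : ℕ} {Θ Θ' : Γ → V} (h : Pol J m Θ) (h' : Pol J m Θ') :
    Pol J m (fun x => Θ x - Θ' x) :=
  congr (add h (neg h')) (fun x => by beta_reduce; abel)

theorem const (c : V) : Pol J 1 (fun _ : Γ => c) := fun _ _ => by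
  simp only [sub_self]
  exact J.zero_mem

theorem map {V' : Type} [AddCommGroup V'] {J' : AddSubgroup V'} (φ : V →+ V')
    (hφ : ∀ v ∈ J, φ v ∈ J') : ∀ {m : ℕ} {Θ : Γ → V}, Pol J m Θ → Pol J' m (fun x => φ (Θ x))
  | 0, _, h => fun x => hφ _ (h x)
  | m + 1, _, h => fun y => congr (map φ hφ (h y)) (fun x => by simp)

end Pol

/-- scalar polynomial functions -/
def IsPol {Γ k : Type} [Group Γ] [CommRing k] (f : Γ → k) : Prop :=
  ∃ m, Pol (⊥ : AddSubgroup k) m f

section

variable {Γ k : Type} [Group Γ] [CommRing k]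

theorem Pol.mul : ∀ (m m' : ℕ) (f g : Γ → k), Pol (⊥ : AddSubgroup k) m f →
    Pol (⊥ : AddSubgroup k) m' g → Pol (⊥ : AddSubgroup k) (m + m') (fun x => f x * g x) := by
  intro m
  induction m with
  | zero =>
    intro m' f g hf _
    refine Pol.mono (Nat.zero_le _) (m := 0) fun x => ?_
    have : f x = 0 := hf x
    simp [this]
  | succ m ihm =>
    intro m'
    induction m' with
    | zero =>
      intro f g _ hg
      refine Pol.mono (Nat.zero_le _) (m := 0) fun x => ?_
      have : g x = 0 := hg x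
      simp [this]
    | succ m' ihm' =>
      intro f g hf hg
      show Pol _ ((m + 1 + m') + 1) _
      intro y
      have h1 := ihm (m' + 1) _ g (hf y) hg
      have h2 := ihm' f _ hf (hg y)
      have h3 := ihm m' _ _ (hf y) (hg y)
      have h1' : Pol (⊥ : AddSubgroup k) (m + 1 + m') (fun x => (f (x * y) - f x) * g x) :=
        Pol.mono (by omega) h1
      have h3' : Pol (⊥ : AddSubgroup k) (m + 1 + m')
          (fun x => (f (x * y) - f x) * (g (x * y) - g x)) := Pol.mono (by omega) h3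
      exact Pol.congr ((h1'.add h2).add h3') (fun x => by ring)

theorem IsPol.mul {f g : Γ → k} (hf : IsPol f) (hg : IsPol g) : IsPol (fun x => f x * g x) := by
  obtain ⟨m, hm⟩ := hf
  obtain ⟨m', hm'⟩ := hg
  exact ⟨_, Pol.mul m m' f g hm hm'⟩

theorem IsPol.const (c : k) : IsPol (fun _ : Γ => c) := ⟨1, Pol.const c⟩

theorem IsPol.sub {f g : Γ → k} (hf : IsPol f) (hg : IsPol g) : IsPol (fun x => f x - g x) := by
  obtain ⟨m, hm⟩ := hf
  obtain ⟨m', hm'⟩ := hg
  exact ⟨max m m', (Pol.mono (le_max_left _ _) hm).sub (Pol.mono (le_max_right _ _) hm')⟩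

theorem IsPol.pow {f : Γ → k} (hf : IsPol f) : ∀ n : ℕ, IsPol (fun x => f x ^ n)
  | 0 => by simpa using IsPol.const (Γ := Γ) (1 : k)
  | n + 1 => by
    simp only [pow_succ]
    exact (hf.pow n).mul hf

theorem IsPol.prod {ι : Type} (s : Finset ι) (f : ι → Γ → k) (hf : ∀ i ∈ s, IsPol (f i)) :
    IsPol (fun x => ∏ i ∈ s, f i x) := by
  classical
  induction s using Finset.induction_on with
  | empty => simpa using IsPol.const (Γ := Γ) (1 : k)
  | insert i s hi ih =>
    simp only [Finset.prod_insert hi]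
    exact (hf i (Finset.mem_insert_self _ _)).mul
      (ih fun j hj => hf j (Finset.mem_insert_of_mem hj))

theorem finiteIndex_of_pol (L : Subgroup Γ) : ∀ (m : ℕ) (f : Γ → k),
    Pol (⊥ : AddSubgroup k) m f → (∃ x, f x ≠ 0) → ∀ t : Finset Γ,
    (∀ x, f x ≠ 0 → ∃ g ∈ t, x * g ∈ L) → L.FiniteIndex := by
  classical
  intro m
  induction m with
  | zero =>
    rintro f hf ⟨x, hx⟩ t _
    exact absurd (hf x) hx
  | succ m ih =>
    rintro f hf ⟨x₀, hx₀⟩ t ht
    by_cases h : ∃ y x, f (x * y) - f x ≠ 0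
    · obtain ⟨y, x, hyx⟩ := h
      refine ih _ (hf y) ⟨x, hyx⟩ (t ∪ t.image (fun g => y * g)) fun z hz => ?_
      by_cases h1 : f z = 0
      · have h2 : f (z * y) ≠ 0 := by
          intro h3
          rw [h1, h3, sub_zero] at hz
          exact hz rfl
        obtain ⟨g, hg, hgL⟩ := ht _ h2
        refine ⟨y * g, Finset.mem_union_right _ (Finset.mem_image_of_mem _ hg), ?_⟩
        rw [← mul_assoc]
        exact hgL
      · obtain ⟨g, hg, hgL⟩ := ht _ h1
        exact ⟨g, Finset.mem_union_left _ hg, hgL⟩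
    · push Not at h
      have h1 : ∀ x, f x ≠ 0 := by
        intro x
        have := h (x₀⁻¹ * x) x₀
        rw [mul_inv_cancel_left, sub_eq_zero] at this
        rw [this]
        exact hx₀
      have h2 : ∀ q : Γ ⧸ L, q ∈ ((t.image (fun g => (QuotientGroup.mk g : Γ ⧸ L)) :
          Finset (Γ ⧸ L)) : Set (Γ ⧸ L)) := by
        intro q
        obtain ⟨z, rfl⟩ := QuotientGroup.mk_surjective q
        obtain ⟨g, hg, hgL⟩ := ht z⁻¹ (h1 _)
        rw [Finset.coe_image]
        refine ⟨g, hg, ?_⟩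
        rw [QuotientGroup.eq, ← inv_mem_iff, mul_inv_rev, inv_inv]
        exact hgL
      haveI : Finite (Γ ⧸ L) := by
        rw [← Set.finite_univ_iff]
        exact (Finset.finite_toSet _).subset (fun q _ => h2 q)
      exact Subgroup.finiteIndex_of_finite_quotient

end

end Pool.Agent.HL3218
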