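import Mathlib
import Pool.Agent.Work.MP_3218de_al.HL.Pol

set_option autoImplicit false
set_option linter.style.haveILetI false

/-!
# MP_3218de_al: left ideals of group algebras
-/

namespace Pool.Agent.HL3218

open MonoidAlgebra

variable {k : Type} [Field k] {G : Type} [Group G]

/-- the group element in the group algebra -/
noncomputable def gg (k : Type) [Field k] {G : Type} [Group G] (g : G) : MonoidAlgebra k G :=
  MonoidAlgebra.of k G g

theorem gg_mul (a b : G) : gg k (a * b) = gg k a * gg k b := map_mul (MonoidAlgebra.of k G) a b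

theorem gg_one : gg k (1 : G) = 1 := map_one (MonoidAlgebra.of k G)

/-- products of `n` factors `y - 1`, `y ∈ N`, times anything, lie in `J` -/
def NilMod (J : Ideal (MonoidAlgebra k G)) (N : Subgroup G) (n : ℕ) : Prop :=
  ∀ l : List G, (∀ y ∈ l, y ∈ N) → l.length = n →
    ∀ r : MonoidAlgebra k G, (l.map (fun y => gg k y - 1)).prod * r ∈ J

theorem NilMod.ge {J : Ideal (MonoidAlgebra k G)} {N : Subgroup G} {n : ℕ} (h : NilMod J N n)
    (l : List G) (hl : ∀ y ∈ l, y ∈ N) (hn : n ≤ l.length) (r : MonoidAlgebra k G) :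
    (l.map (fun y => gg k y - 1)).prod * r ∈ J := by
  have h1 : (l.map (fun y => gg k y - 1)).prod =
      ((l.take n).map (fun y => gg k y - 1)).prod *
        ((l.drop n).map (fun y => gg k y - 1)).prod := by
    rw [← List.prod_append, ← List.map_append, List.take_append_drop]
  rw [h1, mul_assoc]
  exact h _ (fun y hy => hl y (List.mem_of_mem_take hy)) (by simp [hn]) _

section poly

variable (N : Subgroup G) (f : G)

/-- auxiliary functions -/
noncomputable def Psi (Y : List N) (Θ : N → MonoidAlgebra k G) : N → MonoidAlgebra k G :=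
  fun x => gg k (f * x * f⁻¹) *
    ((Y.map (fun y : N => gg k (f * y * f⁻¹) - 1)).prod * Θ x)

theorem psi_delta (Y : List N) (Θ : N → MonoidAlgebra k G) (y x : N) :
    Psi N f Y Θ (x * y) - Psi N f Y Θ x =
      Psi N f (y :: Y) Θ x + Psi N f (y :: Y) (fun x => Θ (x * y) - Θ x) x +
        Psi N f Y (fun x => Θ (x * y) - Θ x) x := by
  unfold Psi
  have h1 : gg k (f * ((x * y : N) : G) * f⁻¹) = gg k (f * x * f⁻¹) * gg k (f * y * f⁻¹) := by
    rw [← gg_mul]
    congr 1
    push_cast
    group
  rw [h1]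
  simp only [List.map_cons, List.prod_cons]
  generalize gg k (f * x * f⁻¹) = a
  generalize gg k (f * y * f⁻¹) = b
  generalize (Y.map (fun y : N => gg k (f * y * f⁻¹) - 1)).prod = c
  noncomm_ring

theorem psi_mem {J : Ideal (MonoidAlgebra k G)} [hN : N.Normal] {n : ℕ} (h : NilMod J N n)
    (Y : List N) (hY : n ≤ Y.length) (Θ : N → MonoidAlgebra k G) (x : N) :
    Psi N f Y Θ x ∈ J := by
  refine J.mul_mem_left _ ?_
  have := h.ge (Y.map (fun y : N => f * y * f⁻¹)) (by
    intro y hy
    rw [List.mem_map] at hy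
    obtain ⟨z, -, rfl⟩ := hy
    exact hN.conj_mem z z.2 f) (by simpa using hY) (Θ x)
  rw [List.map_map] at this
  exact this

theorem psi_pol {J : Ideal (MonoidAlgebra k G)} [N.Normal] {n : ℕ} (h : NilMod J N n) :
    ∀ (m b : ℕ) (Y : List N) (Θ : N → MonoidAlgebra k G), n ≤ Y.length + m →
      Pol J.toAddSubgroup b Θ → Pol J.toAddSubgroup (b + m) (Psi N f Y Θ) := by
  intro m
  induction m with
  | zero =>
    intro b Y Θ hY _
    exact Pol.mono (Nat.zero_le _) (m := 0) (fun x => psi_mem N f h Y (by omega) Θ x)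
  | succ m ihm =>
    intro b
    induction b with
    | zero =>
      intro Y Θ _ hΘ
      refine Pol.mono (Nat.zero_le _) (m := 0) fun x => ?_
      exact J.mul_mem_left _ (J.mul_mem_left _ (hΘ x))
    | succ b ihb =>
      intro Y Θ hY hΘ
      show Pol _ ((b + 1 + m) + 1) _
      intro y
      have h1 := ihm (b + 1) (y :: Y) Θ (by simp only [List.length_cons]; omega) hΘ
      have h2 := ihm b (y :: Y) _ (by simp only [List.length_cons]; omega) (hΘ y)
      have h3 := ihb Y _ hY (hΘ y)
      have h2' := Pol.mono (show b + m ≤ b + 1 + m by omega) h2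
      have h3' := Pol.mono (show b + (m + 1) ≤ b + 1 + m by omega) h3
      exact Pol.congr ((h1.add h2').add h3') (fun x => psi_delta N f Y Θ y x)

end poly

/-- the products -/
noncomputable def pr (k : Type) [Field k] {G : Type} [Group G] (l : List G) (x : G) :
    MonoidAlgebra k G :=
  (l.map (fun g => gg k (g * x * g⁻¹) - 1)).prod

theorem pr_pol {J : Ideal (MonoidAlgebra k G)} (N : Subgroup G) [N.Normal] {n : ℕ}
    (h : NilMod J N n) (r : MonoidAlgebra k G) : ∀ l : List G,
    Pol J.toAddSubgroup (1 + n * l.length) (fun x : N => pr k l x * r)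
  | [] => by
    simp only [pr, List.map_nil, List.prod_nil, List.length_nil, mul_zero, add_zero]
    exact Pol.const _
  | g :: l => by
    have ih := pr_pol N h r l
    have h1 := psi_pol N g h n _ [] _ (by simp) ih
    have h2 : Pol J.toAddSubgroup (1 + n * (g :: l).length)
        (Psi N g [] (fun x : N => pr k l x * r)) := by
      refine Pol.mono (le_of_eq ?_) h1
      simp only [List.length_cons]
      ring
    have h3 : Pol J.toAddSubgroup (1 + n * (g :: l).length) (fun x : N => pr k l x * r) := by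
      refine Pol.mono ?_ ih
      simp only [List.length_cons]
      nlinarith
    refine Pol.congr (h2.sub h3) (fun x => ?_)
    simp only [pr, Psi, List.map_cons, List.prod_cons, List.map_nil, List.prod_nil]
    noncomm_ring

theorem pr_mem {J : Ideal (MonoidAlgebra k G)} (N : Subgroup G) [hN : N.Normal] {n : ℕ}
    (h : NilMod J N n) (r : MonoidAlgebra k G) (l : List G) (hl : n ≤ l.length) (x : G)
    (hx : x ∈ N) : pr k l x * r ∈ J := by
  have := h.ge (l.map (fun g => g * x * g⁻¹)) (by
    intro y hy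
    rw [List.mem_map] at hy
    obtain ⟨z, -, rfl⟩ := hy
    exact hN.conj_mem x hx z) (by simpa using hl) r
  rw [List.map_map] at this
  exact this

theorem pr_left (h x : G) : ∀ l : List G,
    gg k h * pr k l x = pr k (l.map (fun g => h * g)) x * gg k h
  | [] => by simp [pr]
  | g :: l => by
    have ih := pr_left h x l
    have h1 : gg k h * (gg k (g * x * g⁻¹) - 1) = (gg k (h * g * x * (h * g)⁻¹) - 1) * gg k h := by
      rw [mul_sub, sub_mul, ← gg_mul, ← gg_mul, mul_one, one_mul]
      congr 2
      group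
    have h2 : pr k (g :: l) x = (gg k (g * x * g⁻¹) - 1) * pr k l x := by
      simp only [pr, List.map_cons, List.prod_cons]
    have h3 : pr k ((g :: l).map (fun g => h * g)) x =
        (gg k (h * g * x * (h * g)⁻¹) - 1) * pr k (l.map (fun g => h * g)) x := by
      simp only [pr, List.map_cons, List.prod_cons]
    rw [h2, h3, ← mul_assoc (gg k h), h1, mul_assoc _ (gg k h), ih, ← mul_assoc]

/-- the span of the products -/
noncomputable def PP (k : Type) [Field k] {G : Type} [Group G] (F : Subgroup G) (x : G) :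
    Submodule k (MonoidAlgebra k G) :=
  Submodule.span k {r | ∃ (l : List G) (f : G), (∀ g ∈ l, g ∈ F) ∧ f ∈ F ∧ r = pr k l x * gg k f}

theorem gg_mem_PP (F : Subgroup G) (x : G) (htor : ∀ g : G, IsOfFinOrder g) (y : G)
    (hy : y ∈ F ⊔ Subgroup.closure {x}) : gg k y ∈ PP k F x := by
  let S : Subgroup G :=
    { carrier := {y | ∀ r ∈ PP k F x, gg k y * r ∈ PP k F x}
      mul_mem' := by
        intro a b ha hb r hr
        rw [gg_mul, mul_assoc]
        exact ha _ (hb _ hr)
      one_mem' := by
        intro r hr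
        rw [gg_one, one_mul]
        exact hr
      inv_mem' := by
        intro a ha r hr
        have h1 : a⁻¹ = a ^ (orderOf a - 1) := by
          have h2 : a ^ (orderOf a - 1) * a = 1 := by
            rw [← pow_succ, Nat.sub_add_cancel (htor a).orderOf_pos, pow_orderOf_eq_one]
          exact (eq_inv_of_mul_eq_one_left h2).symm
        have h3 : ∀ m : ℕ, gg k (a ^ m) * r ∈ PP k F x := by
          intro m
          induction m with
          | zero => rw [pow_zero, gg_one, one_mul]; exact hr
          | succ m ih =>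
            rw [pow_succ', gg_mul, mul_assoc]
            exact ha _ ih
        rw [h1]
        exact h3 _ }
  have hF : F ≤ S := by
    intro h hh
    show ∀ r ∈ PP k F x, gg k h * r ∈ PP k F x
    have : PP k F x ≤ (PP k F x).comap (LinearMap.mulLeft k (gg k h)) := by
      refine Submodule.span_le.2 ?_
      rintro _ ⟨l, f, hl, hf, rfl⟩
      show gg k h * (pr k l x * gg k f) ∈ PP k F x
      refine Submodule.subset_span ⟨l.map (fun g => h * g), h * f, ?_, F.mul_mem hh hf, ?_⟩
      · intro g hg
        rw [List.mem_map] at hg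
        obtain ⟨z, hz, rfl⟩ := hg
        exact F.mul_mem hh (hl z hz)
      · rw [← mul_assoc, pr_left, mul_assoc, gg_mul]
    exact fun r hr => this hr
  have hx : x ∈ S := by
    show ∀ r ∈ PP k F x, gg k x * r ∈ PP k F x
    have : PP k F x ≤ (PP k F x).comap (LinearMap.mulLeft k (gg k x)) := by
      refine Submodule.span_le.2 ?_
      rintro _ ⟨l, f, hl, hf, rfl⟩
      show gg k x * (pr k l x * gg k f) ∈ PP k F x
      have h1 : gg k x * (pr k l x * gg k f) =
          pr k (1 :: l) x * gg k f + pr k l x * gg k f := by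
        simp only [pr, List.map_cons, List.prod_cons, one_mul, inv_one, mul_one]
        noncomm_ring
      rw [h1]
      refine Submodule.add_mem _ (Submodule.subset_span ⟨1 :: l, f, ?_, hf, rfl⟩)
        (Submodule.subset_span ⟨l, f, hl, hf, rfl⟩)
      intro g hg
      rcases List.mem_cons.1 hg with rfl | hg
      · exact F.one_mem
      · exact hl g hg
    exact fun r hr => this hr
  have hle : F ⊔ Subgroup.closure {x} ≤ S :=
    sup_le hF ((Subgroup.closure_le _).2 (Set.singleton_subset_iff.2 hx))
  have h1 : (1 : MonoidAlgebra k G) ∈ PP k F x :=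
    Submodule.subset_span ⟨[], 1, by simp, F.one_mem, by simp [pr, gg_one]⟩
  have := hle hy 1 h1
  rwa [mul_one] at this

/-- the span of the ideal and a subgroup -/
noncomputable def WW (J : Ideal (MonoidAlgebra k G)) (H : Subgroup G) :
    Submodule k (MonoidAlgebra k G) :=
  J.restrictScalars k ⊔ Submodule.span k ((fun g => gg k g) '' (H : Set G))

theorem gg_mem_WW (J : Ideal (MonoidAlgebra k G)) (H : Subgroup G) {g : G} (hg : g ∈ H) :
    gg k g ∈ WW J H :=
  Submodule.mem_sup_right (Submodule.subset_span ⟨g, hg, rfl⟩)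

theorem ideal_le_WW (J : Ideal (MonoidAlgebra k G)) (H : Subgroup G) {r : MonoidAlgebra k G}
    (hr : r ∈ J) : r ∈ WW J H :=
  Submodule.mem_sup_left hr

theorem WW_le (J : Ideal (MonoidAlgebra k G)) (H : Subgroup G)
    (W : Submodule k (MonoidAlgebra k G)) (h1 : ∀ r ∈ J, r ∈ W) (h2 : ∀ g ∈ H, gg k g ∈ W) :
    WW J H ≤ W := by
  refine sup_le (fun r hr => h1 r hr) (Submodule.span_le.2 ?_)
  rintro _ ⟨g, hg, rfl⟩
  exact h2 g hg

theorem WW_mono (J : Ideal (MonoidAlgebra k G)) {H H' : Subgroup G} (h : H ≤ H') :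
    WW J H ≤ WW J H' :=
  WW_le J H _ (fun _ hr => ideal_le_WW J H' hr) (fun _ hg => gg_mem_WW J H' (h hg))

theorem mem_WW_iSup (J : Ideal (MonoidAlgebra k G)) (c : ℕ → Subgroup G) (hc : Monotone c)
    {z : MonoidAlgebra k G} (hz : z ∈ WW J (⨆ n, c n)) : ∃ n, z ∈ WW J (c n) := by
  have hd : Directed (· ≤ ·) (fun n => WW J (c n)) :=
    (show Monotone (fun n => WW J (c n)) from fun _ _ h => WW_mono J (hc h)).directed_le
  have h1 : WW J (⨆ n, c n) ≤ ⨆ n, WW J (c n) := by
    refine WW_le J _ _ (fun r hr => ?_) (fun g hg => ?_)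
    · exact Submodule.mem_iSup_of_mem 0 (ideal_le_WW J _ hr)
    · obtain ⟨n, hn⟩ := (Subgroup.mem_iSup_of_directed hc.directed_le).1 hg
      exact Submodule.mem_iSup_of_mem n (gg_mem_WW J _ hn)
  exact (Submodule.mem_iSup_of_directed _ hd).1 (h1 hz)

/-- The main step: `K ∩ N` has finite index in `N`. -/
theorem alg_main {p : ℕ} [hp : Fact p.Prime] (htor : ∀ g : G, IsOfFinOrder g)
    (J : Ideal (MonoidAlgebra (ZMod p) G)) (z : MonoidAlgebra (ZMod p) G)
    (F : Subgroup G) [hFf : Finite F] (hF : z ∉ WW J F) (K : Subgroup G)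
    (hK : ∀ x, x ∉ K → z ∈ WW J (F ⊔ Subgroup.closure {x}))
    (N : Subgroup G) [hN : N.Normal] (n : ℕ) (hn : NilMod J N n) :
    (K.subgroupOf N).FiniteIndex := by
  classical
  obtain ⟨φ, hφz, hφ⟩ := Submodule.exists_le_ker_of_notMem hF
  have hφJ : ∀ r ∈ J, φ r = 0 := fun r hr => hφ (ideal_le_WW J F hr)
  have hφF : ∀ f ∈ F, φ (gg (ZMod p) f) = 0 := fun f hf => hφ (gg_mem_WW J F hf)
  let θ : List F × F → N → ZMod p := fun i x =>
    φ (pr (ZMod p) (i.1.map (fun g : F => (g : G))) (x : G) * gg (ZMod p) (i.2 : G))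
  have h1 : ∀ x : N, (x : G) ∉ K → ∃ i : List F × F, i.1.length < n ∧ θ i x ≠ 0 := by
    intro x hx
    by_contra hcon
    push Not at hcon
    have hP : PP (ZMod p) F (x : G) ≤ LinearMap.ker φ := by
      refine Submodule.span_le.2 ?_
      rintro _ ⟨l, f, hl, hf, rfl⟩
      show φ _ = 0
      by_cases hln : l.length < n
      · have h2 := hcon (l.attach.map (fun g => (⟨g.1, hl g.1 g.2⟩ : F)), ⟨f, hf⟩)
          (by simpa using hln)
        have h3 : (l.attach.map (fun g => (⟨g.1, hl g.1 g.2⟩ : F))).map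
            (fun g : F => (g : G)) = l := by
          rw [List.map_map]
          exact l.attach_map_subtype_val
        simp only [θ] at h2
        rw [h3] at h2
        exact h2
      · exact hφJ _ (pr_mem N hn _ l (not_lt.1 hln) x x.2)
    have hW : WW J (F ⊔ Subgroup.closure {(x : G)}) ≤ LinearMap.ker φ :=
      WW_le J _ _ (fun r hr => hφJ r hr) (fun g hg => hP (gg_mem_PP F (x : G) htor g hg))
    exact hφz (hW (hK x hx))
  have hθ1 : ∀ i, θ i 1 = 0 := by
    rintro ⟨l, f⟩
    cases l with
    | nil =>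
      simp only [θ, pr, List.map_nil, List.prod_nil, one_mul]
      exact hφF f f.2
    | cons g l =>
      have h2 : pr (ZMod p) ((g :: l).map (fun g : F => (g : G))) ((1 : N) : G) = 0 := by
        simp only [pr, List.map_cons, List.prod_cons, Subgroup.coe_one, mul_one, mul_inv_cancel,
          gg_one, sub_self, zero_mul]
      simp only [θ]
      rw [h2, zero_mul, map_zero]
  have hfin : {l : List F | l.length < n}.Finite := List.finite_length_lt F n
  haveI := Fintype.ofFinite F
  let I : Finset (List F × F) := hfin.toFinset ×ˢ Finset.univ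
  have hI : ∀ i : List F × F, i ∈ I ↔ i.1.length < n := by
    intro i
    simp [I]
  let T : N → ZMod p := fun x => ∏ i ∈ I, (1 - θ i x ^ (p - 1))
  have hT1 : T 1 = 1 := by
    refine Finset.prod_eq_one fun i _ => ?_
    rw [hθ1, zero_pow (Nat.sub_ne_zero_of_lt hp.out.one_lt), sub_zero]
  have hTK : ∀ x : N, T x ≠ 0 → (x : G) ∈ K := by
    intro x hx
    by_contra hxK
    obtain ⟨i, hi, hix⟩ := h1 x hxK
    apply hx
    refine Finset.prod_eq_zero ((hI i).2 hi) ?_
    rw [ZMod.pow_card_sub_one_eq_one hix, sub_self]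
  have hθp : ∀ i, IsPol (θ i) := by
    intro i
    have h2 := pr_pol N hn (gg (ZMod p) (i.2 : G)) (i.1.map (fun g : F => (g : G)))
    exact ⟨_, Pol.map (J' := (⊥ : AddSubgroup (ZMod p))) φ.toAddMonoidHom
      (fun v hv => hφJ v hv) h2⟩
  have hTp : IsPol T := IsPol.prod I (fun i x => 1 - θ i x ^ (p - 1)) (fun i _ =>
    (IsPol.const 1).sub ((hθp i).pow _))
  obtain ⟨m, hm⟩ := hTp
  refine finiteIndex_of_pol (K.subgroupOf N) m T hm ⟨1, by rw [hT1]; exact one_ne_zero⟩ {1}
    (fun x hx => ⟨1, by simp, ?_⟩)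
  rw [mul_one, Subgroup.mem_subgroupOf]
  exact hTK x hx

end Pool.Agent.HL3218
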