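import Mathlib

set_option autoImplicit false
set_option linter.style.haveILetI false

/-!
# MP_3218de_al: characteristic subgroups of finite index with the same solvable law

Khukhro - Makarenko argument for the law of solvability.
-/

namespace Pool.Agent.HL3218

open Subgroup
open scoped commutatorElement

/-- derived series of a subgroup -/
def Dn {G : Type} [Group G] : ℕ → Subgroup G → Subgroup G
  | 0, H => H
  | d + 1, H => ⁅Dn d H, Dn d H⁆

/-- index type of the tuples -/
def Idx : ℕ → Type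
  | 0 => Unit
  | d + 1 => Idx d ⊕ Idx d

theorem Idx.finite : ∀ d, Finite (Idx d)
  | 0 => inferInstanceAs (Finite Unit)
  | d + 1 => by
    haveI := Idx.finite d
    exact inferInstanceAs (Finite (Idx d ⊕ Idx d))

/-- iterated commutator of a tuple -/
def dl {G : Type} [Group G] : (d : ℕ) → (Idx d → Subgroup G) → Subgroup G
  | 0, X => X ()
  | d + 1, X => ⁅dl d (fun i => X (Sum.inl i)), dl d (fun i => X (Sum.inr i))⁆

section dl

variable {G : Type} [Group G]

theorem dl_const (H : Subgroup G) : ∀ d, dl d (fun _ => H) = Dn d H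
  | 0 => rfl
  | d + 1 => by
    show ⁅dl d (fun _ => H), dl d (fun _ => H)⁆ = ⁅Dn d H, Dn d H⁆
    rw [dl_const H d]

theorem dl_normal : ∀ (d : ℕ) (X : Idx d → Subgroup G), (∀ i, (X i).Normal) → (dl d X).Normal
  | 0, _, h => h ()
  | d + 1, X, h => by
    haveI := dl_normal d (fun i => X (Sum.inl i)) (fun i => h _)
    haveI := dl_normal d (fun i => X (Sum.inr i)) (fun i => h _)
    exact Subgroup.commutator_normal _ _

theorem dl_mono : ∀ (d : ℕ) (X Y : Idx d → Subgroup G), (∀ i, X i ≤ Y i) → dl d X ≤ dl d Y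
  | 0, _, _, h => h ()
  | d + 1, _, _, h =>
    Subgroup.commutator_mono (dl_mono d _ _ (fun i => h (Sum.inl i)))
      (dl_mono d _ _ (fun i => h (Sum.inr i)))

theorem dl_map {G' : Type} [Group G'] (f : G →* G') : ∀ (d : ℕ) (X : Idx d → Subgroup G),
    (dl d X).map f = dl d (fun i => (X i).map f)
  | 0, _ => rfl
  | d + 1, X => by
    show (⁅dl d _, dl d _⁆).map f = ⁅dl d _, dl d _⁆
    rw [Subgroup.map_commutator, dl_map f d, dl_map f d]

/-- elements commuting with `C` modulo `D` -/
def Cn (C D : Subgroup G) [D.Normal] : Subgroup G :=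
  (Subgroup.centralizer ((C.map (QuotientGroup.mk' D) : Subgroup (G ⧸ D)) : Set (G ⧸ D))).comap
    (QuotientGroup.mk' D)

theorem mem_Cn {C D : Subgroup G} [D.Normal] {x : G} : x ∈ Cn C D ↔ ∀ c ∈ C, ⁅x, c⁆ ∈ D := by
  have key : ∀ c : G, (QuotientGroup.mk' D c * QuotientGroup.mk' D x =
      QuotientGroup.mk' D x * QuotientGroup.mk' D c) ↔ ⁅x, c⁆ ∈ D := by
    intro c
    rw [← QuotientGroup.eq_one_iff, ← QuotientGroup.mk'_apply, map_commutatorElement,
      commutatorElement_eq_one_iff_mul_comm]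
    exact eq_comm
  unfold Cn
  rw [Subgroup.mem_comap, Subgroup.mem_centralizer_iff]
  constructor
  · intro h c hc
    exact (key c).1 (h _ (Subgroup.mem_map_of_mem _ hc))
  · rintro h _ ⟨c, hc, rfl⟩
    exact (key c).2 (h c hc)

theorem le_Cn {A C D : Subgroup G} [D.Normal] : A ≤ Cn C D ↔ ⁅A, C⁆ ≤ D := by
  rw [Subgroup.commutator_le]
  exact ⟨fun h a ha => mem_Cn.1 (h ha), fun h a ha => mem_Cn.2 (h a ha)⟩

theorem dl_sup {ι : Type} : ∀ (d : ℕ) (X : Idx d → Subgroup G) (Y : ι → Idx d → Subgroup G),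
    (∀ g i, (Y g i).Normal) → ∀ i₀ : Idx d, (∀ i, i ≠ i₀ → ∀ g, X i ≤ Y g i) →
    X i₀ ≤ ⨆ g, Y g i₀ → dl d X ≤ ⨆ g, dl d (Y g)
  | 0, _, _, _, _, _, h => h
  | d + 1, X, Y, hY, i₀, h1, h2 => by
    have hN : ∀ g, (dl (d + 1) (Y g)).Normal := fun g => dl_normal _ _ (hY g)
    haveI : (⨆ g, dl (d + 1) (Y g)).Normal := by
      haveI := hN
      infer_instance
    show ⁅dl d (fun i => X (Sum.inl i)), dl d (fun i => X (Sum.inr i))⁆ ≤ _
    rcases i₀ with i | i
    · have e1 := dl_sup d (fun i => X (Sum.inl i)) (fun g i => Y g (Sum.inl i))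
        (fun g i => hY g _) i
        (fun j hj g => h1 _ (fun e => hj (Sum.inl.inj e)) g) h2
      rw [← le_Cn]
      refine e1.trans (iSup_le fun g => ?_)
      rw [le_Cn]
      refine le_trans ?_ (le_iSup (fun g => dl (d + 1) (Y g)) g)
      exact Subgroup.commutator_mono le_rfl (dl_mono d _ _ fun j =>
        h1 (Sum.inr j) (fun e => Sum.inr_ne_inl e) g)
    · have e1 := dl_sup d (fun i => X (Sum.inr i)) (fun g i => Y g (Sum.inr i))
        (fun g i => hY g _) i
        (fun j hj g => h1 _ (fun e => hj (Sum.inr.inj e)) g) h2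
      rw [Subgroup.commutator_comm, ← le_Cn]
      refine e1.trans (iSup_le fun g => ?_)
      rw [le_Cn]
      refine le_trans ?_ (le_iSup (fun g => dl (d + 1) (Y g)) g)
      rw [Subgroup.commutator_comm]
      exact Subgroup.commutator_mono (dl_mono d _ _ fun j =>
        h1 (Sum.inl j) (fun e => Sum.inl_ne_inr e) g) le_rfl

end dl

/-- a finite subfamily has the same join, if all members have finite index -/
theorem exists_finite_sup {G : Type} [Group G] {ι : Type} (i₀ : ι) (A : ι → Subgroup G)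
    (hA : ∀ i, (A i).FiniteIndex) : ∃ t : Finset ι, i₀ ∈ t ∧ ⨆ i : t, A i = ⨆ i, A i := by
  classical
  let P : ℕ → Prop := fun n => ∃ t : Finset ι, i₀ ∈ t ∧ (⨆ i : t, A i).index = n
  have hP : ∃ n, P n := ⟨_, {i₀}, by simp, rfl⟩
  obtain ⟨t, ht0, ht⟩ := Nat.find_spec hP
  refine ⟨t, ht0, le_antisymm (iSup_le fun i => le_iSup A i) (iSup_le fun j => ?_)⟩
  set B : Subgroup G := ⨆ i : t, A i with hB
  set C : Subgroup G := ⨆ i : (insert j t : Finset ι), A i with hC
  have hBC : B ≤ C := iSup_le fun i => le_iSup (fun i : (insert j t : Finset ι) => A i)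
    ⟨i.1, Finset.mem_insert_of_mem i.2⟩
  have hjC : A j ≤ C := le_iSup (fun i : (insert j t : Finset ι) => A i)
    ⟨j, Finset.mem_insert_self _ _⟩
  have hBf : B.FiniteIndex := by
    haveI := hA i₀
    exact Subgroup.finiteIndex_of_le (le_iSup (fun i : t => A i) ⟨i₀, ht0⟩)
  have hCf : C.FiniteIndex := by
    haveI := hBf
    exact Subgroup.finiteIndex_of_le hBC
  have h1 : B.index ≤ C.index := by
    rw [ht]
    exact Nat.find_min' hP ⟨insert j t, Finset.mem_insert_of_mem ht0, rfl⟩
  have h2 := Subgroup.relIndex_mul_index hBC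
  have h3 : B.relIndex C = 1 := by
    have hc := hCf.index_ne_zero
    have hb := hBf.index_ne_zero
    have : B.relIndex C * C.index ≤ 1 * C.index := by
      rw [h2, one_mul]; exact h1
    have h4 : B.relIndex C ≤ 1 := Nat.le_of_mul_le_mul_right this (Nat.pos_of_ne_zero hc)
    have h5 : B.relIndex C ≠ 0 := by
      intro h0
      rw [h0, zero_mul] at h2
      exact hb h2.symm
    omega
  exact hjC.trans (Subgroup.relIndex_eq_one.1 h3)

section KM

variable {Γ T : Type} [Group Γ] [Group T] (α : T →* MulAut Γ)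

/-- invariant under the operators -/
def AInv (H : Subgroup Γ) : Prop := ∀ g : T, H.map (α g).toMonoidHom ≤ H

theorem km_step (d k : ℕ) (H L : Subgroup Γ)
    (hHi : AInv α H) (hHn : H.Normal) (hL : L.Normal) (hLf : L.FiniteIndex) (hLH : L ≤ H)
    (hk : ∀ s : Finset (Idx d), s.card ≤ k →
      ∀ X : Idx d → Subgroup Γ, (∀ i, i ∈ s → X i ≤ H) → (∀ i, i ∉ s → X i ≤ L) → dl d X = ⊥) :
    ∃ H' L' : Subgroup Γ, AInv α H' ∧ L'.Normal ∧ L'.FiniteIndex ∧ L' ≤ H' ∧
      ∀ s : Finset (Idx d), s.card ≤ k + 1 →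
      ∀ X : Idx d → Subgroup Γ, (∀ i, i ∈ s → X i ≤ H') → (∀ i, i ∉ s → X i ≤ L') →
        dl d X = ⊥ := by
  classical
  let A : T → Subgroup Γ := fun g => L.map (α g).toMonoidHom
  have hAn : ∀ g, (A g).Normal := fun g => by
    haveI := hL
    exact Subgroup.Normal.map hL _ (α g).surjective
  have hAf : ∀ g, (A g).FiniteIndex := fun g => by
    haveI := hLf
    refine ⟨?_⟩
    have : (A g).index = L.index := Subgroup.index_map_equiv L (α g)
    rw [this]
    exact hLf.index_ne_zero
  obtain ⟨t, ht1, ht⟩ := exists_finite_sup (1 : T) A hAf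
  have hA1 : A 1 = L := by
    show L.map _ = L
    rw [map_one]
    exact Subgroup.map_id L
  have hAH : ∀ g, A g ≤ H := fun g => (Subgroup.map_mono hLH).trans (hHi g)
  -- translate of the hypothesis
  have htr : ∀ g : T, ∀ s : Finset (Idx d), s.card ≤ k →
      ∀ X : Idx d → Subgroup Γ, (∀ i, i ∈ s → X i ≤ H) → (∀ i, i ∉ s → X i ≤ A g) →
        dl d X = ⊥ := by
    intro g s hs X hX1 hX2
    have h1 : dl d (fun i => (X i).map (α g⁻¹).toMonoidHom) = ⊥ := by
      refine hk s hs _ (fun i hi => (Subgroup.map_mono (hX1 i hi)).trans (hHi _))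
        (fun i hi => (Subgroup.map_mono (hX2 i hi)).trans ?_)
      rintro _ ⟨_, ⟨y, hy, rfl⟩, rfl⟩
      have : (α g⁻¹).toMonoidHom ((α g).toMonoidHom y) = y := by
        show α g⁻¹ (α g y) = y
        rw [map_inv]
        exact (α g).symm_apply_apply y
      rw [this]
      exact hy
    rw [← dl_map] at h1
    exact (Subgroup.map_eq_bot_iff_of_injective _ (α g⁻¹).injective).1 h1
  refine ⟨⨆ g, A g, ⨅ g : t, A g, ?_, ?_, ?_, ?_, ?_⟩
  · intro g
    rw [Subgroup.map_iSup]
    refine iSup_le fun h => ?_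
    refine le_trans ?_ (le_iSup A (g * h))
    rintro _ ⟨_, ⟨y, hy, rfl⟩, rfl⟩
    refine ⟨y, hy, ?_⟩
    show α (g * h) y = α g (α h y)
    rw [map_mul]
    rfl
  · haveI := hAn
    exact Subgroup.normal_iInf_normal (fun g : t => hAn g)
  · haveI := hAf
    exact Subgroup.finiteIndex_iInf (fun g : t => hAf g)
  · exact (iInf_le (fun g : t => A g) ⟨1, ht1⟩).trans (le_iSup A 1)
  · intro s hs X hX1 hX2
    rcases s.eq_empty_or_nonempty with h0 | ⟨i₀, hi₀⟩
    · refine htr 1 ∅ (by simp) X (fun i hi => by simp at hi) (fun i _ => ?_)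
      exact (hX2 i (by simp [h0])).trans (iInf_le (fun g : t => A g) ⟨1, ht1⟩)
    · have h1 := dl_sup d X (fun (g : t) i => if i = i₀ then A g else
          if i ∈ s then H else A g) ?_ i₀ ?_ ?_
      · rw [← le_bot_iff]
        refine h1.trans (iSup_le fun g => ?_)
        rw [le_bot_iff]
        refine htr g (s.erase i₀) ?_ _ ?_ ?_
        · rw [Finset.card_erase_of_mem hi₀]; omega
        · intro i hi
          rw [Finset.mem_erase] at hi
          simp only [hi.1, if_false, hi.2, if_true]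
          exact le_rfl
        · intro i hi
          by_cases h2 : i = i₀
          · simp [h2]
          · have : i ∉ s := fun h => hi (Finset.mem_erase.2 ⟨h2, h⟩)
            simp [h2, this]
      · intro g i
        by_cases h2 : i = i₀
        · simp only [h2, if_true]
          exact hAn g
        · simp only [h2, if_false]
          by_cases h3 : i ∈ s
          · simp only [h3, if_true]
            exact hHn
          · simp only [h3, if_false]
            exact hAn g
      · intro i hi g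
        simp only [hi, if_false]
        by_cases h2 : i ∈ s
        · simp only [h2, if_true]
          exact (hX1 i h2).trans (iSup_le hAH)
        · simp only [h2, if_false]
          exact (hX2 i h2).trans (iInf_le (fun g : t => A g) g)
      · simp only [if_true]
        rw [ht]
        exact hX1 i₀ hi₀

theorem AInv.normal (hin : ∀ x : Γ, ∃ g : T, α g = MulAut.conj x) {H : Subgroup Γ}
    (h : AInv α H) : H.Normal := by
  refine ⟨fun n hn x => ?_⟩
  obtain ⟨g, hg⟩ := hin x
  have h1 : α g n ∈ H := h g ⟨n, hn, rfl⟩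
  rw [hg, MulAut.conj_apply] at h1
  exact h1

theorem Dn_mono {H K : Subgroup Γ} (h : H ≤ K) : ∀ d, Dn d H ≤ Dn d K
  | 0 => h
  | d + 1 => Subgroup.commutator_mono (Dn_mono h d) (Dn_mono h d)

theorem km (hin : ∀ x : Γ, ∃ g : T, α g = MulAut.conj x) (d : ℕ) (L₀ : Subgroup Γ)
    (hf : L₀.FiniteIndex) (h0 : Dn d L₀ = ⊥) :
    ∃ H : Subgroup Γ, AInv α H ∧ H.FiniteIndex ∧ Dn d H = ⊥ := by
  classical
  have key : ∀ k : ℕ, ∃ H L : Subgroup Γ, AInv α H ∧ L.Normal ∧ L.FiniteIndex ∧ L ≤ H ∧
      ∀ s : Finset (Idx d), s.card ≤ k →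
      ∀ X : Idx d → Subgroup Γ, (∀ i, i ∈ s → X i ≤ H) → (∀ i, i ∉ s → X i ≤ L) →
        dl d X = ⊥ := by
    intro k
    induction k with
    | zero =>
      refine ⟨⊤, L₀.normalCore, fun g => le_top, inferInstance, inferInstance, le_top, ?_⟩
      intro s hs X _ hX
      have hs0 : s = ∅ := Finset.card_eq_zero.1 (Nat.le_zero.1 hs)
      subst hs0
      rw [← le_bot_iff, ← h0, ← dl_const]
      exact dl_mono d _ _ (fun i => (hX i (by simp)).trans L₀.normalCore_le)
    | succ k ih =>
      obtain ⟨H, L, h1, h2, h3, h4, h5⟩ := ih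
      exact km_step α d k H L h1 (h1.normal α hin) h2 h3 h4 h5
  haveI := Idx.finite d
  haveI := Fintype.ofFinite (Idx d)
  obtain ⟨H, L, h1, h2, h3, h4, h5⟩ := key (Fintype.card (Idx d))
  refine ⟨H, h1, ?_, ?_⟩
  · haveI := h3
    exact Subgroup.finiteIndex_of_le h4
  · rw [← dl_const]
    exact h5 Finset.univ le_rfl _ (fun i _ => le_rfl) (fun i hi => absurd (Finset.mem_univ i) hi)

end KM

section cor

variable {G : Type} [Group G]

theorem Dn_map {G' : Type} [Group G'] (f : G →* G') (H : Subgroup G) : ∀ d,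
    (Dn d H).map f = Dn d (H.map f)
  | 0 => rfl
  | d + 1 => by
    show (⁅Dn d H, Dn d H⁆).map f = ⁅Dn d _, Dn d _⁆
    rw [Subgroup.map_commutator, Dn_map f H d]

theorem derivedSeries_map_subtype (H : Subgroup G) : ∀ d,
    (derivedSeries H d).map H.subtype = Dn d H
  | 0 => by
    rw [derivedSeries_zero, ← MonoidHom.range_eq_map, Subgroup.range_subtype]
    rfl
  | d + 1 => by
    rw [derivedSeries_succ, Subgroup.map_commutator, derivedSeries_map_subtype H d]
    rfl

theorem solvable_iff (H : Subgroup G) : Group.IsSolvable H ↔ ∃ d, Dn d H = ⊥ := by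
  rw [Group.isSolvable_def]
  refine exists_congr fun d => ?_
  rw [← derivedSeries_map_subtype]
  exact (Subgroup.map_eq_bot_iff_of_injective _ H.subtype_injective).symm

/-- the Khukhro - Makarenko theorem for solvable laws, inside a normal subgroup -/
theorem km_normal (N : Subgroup G) [N.Normal] (K : Subgroup G) (d : ℕ) (hK : Dn d K = ⊥)
    (hf : (K.subgroupOf N).FiniteIndex) :
    ∃ H : Subgroup G, H.Normal ∧ H ≤ N ∧ (H.subgroupOf N).FiniteIndex ∧ Dn d H = ⊥ := by
  have h0 : Dn d (K.subgroupOf N) = ⊥ := by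
    rw [← Subgroup.map_eq_bot_iff_of_injective _ N.subtype_injective, Dn_map, ← le_bot_iff, ← hK]
    refine Dn_mono ?_ d
    rw [Subgroup.subgroupOf_map_subtype]
    exact inf_le_left
  obtain ⟨H, h1, h2, h3⟩ := km (MulAut.conjNormal : G →* MulAut N)
    (fun x => ⟨x, by ext y; simp⟩) d (K.subgroupOf N) hf h0
  refine ⟨H.map N.subtype, ?_, ?_, ?_, ?_⟩
  · refine ⟨?_⟩
    rintro _ ⟨n, hn, rfl⟩ g
    refine ⟨MulAut.conjNormal g n, h1 g ⟨n, hn, rfl⟩, ?_⟩
    simp
  · rintro _ ⟨n, _, rfl⟩
    exact n.2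
  · have : (H.map N.subtype).subgroupOf N = H := by
      rw [Subgroup.subgroupOf, Subgroup.comap_map_eq_self_of_injective N.subtype_injective]
    rw [this]
    exact h2
  · rw [← Dn_map, h3, Subgroup.map_bot]

end cor

end Pool.Agent.HL3218
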