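import Mathlib
import Pool.Agent.Work.MP_3218de_al.HL.KM

set_option autoImplicit false
set_option linter.style.haveILetI false

/-!
# MP_3218de_al: elementary properties of the examples
-/

namespace Pool.Agent.HL3218

open Subgroup
open scoped commutatorElement

/-- the conditions of the problem: nontrivial perfect locally finite p-group, all proper subgroups
of which are solvable and hypercentral -/
structure Exm (p : ℕ) (G : Type) [Group G] : Prop where
  prime : p.Prime
  nontriv : Nontrivial G
  pgroup : IsPGroup p G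
  perfect : commutator G = ⊤
  locfin : ∀ s : Finset G, Finite (Subgroup.closure (s : Set G))
  proper : ∀ H : Subgroup G, H ≠ ⊤ →
    (Group.IsSolvable H ∧
      ∀ N : Subgroup H, N.Normal → N ≠ ⊤ →
        ∃ x : H, x ∉ N ∧ ∀ y : H, x * y * x⁻¹ * y⁻¹ ∈ N)

namespace Exm

variable {p : ℕ} {G : Type} [Group G]

theorem map (h : Exm p G) {Q : Type} [Group Q] [Nontrivial Q] (f : G →* Q)
    (hf : Function.Surjective f) : Exm p Q where
  prime := h.prime
  nontriv := inferInstance
  pgroup := h.pgroup.of_surjective f hf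
  perfect := by
    rw [eq_top_iff, ← Subgroup.map_top_of_surjective f hf, ← h.perfect, _root_.commutator,
      Subgroup.map_commutator, Subgroup.map_top_of_surjective f hf]
    exact le_rfl
  locfin := by
    classical
    intro s
    let t : Finset G := s.image (Function.surjInv hf)
    have ht : (Subgroup.closure (t : Set G)).map f = Subgroup.closure (s : Set Q) := by
      rw [MonoidHom.map_closure]
      congr 1
      ext q
      simp only [Set.mem_image, Finset.mem_coe, t, Finset.mem_image]
      constructor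
      · rintro ⟨_, ⟨r, hr, rfl⟩, rfl⟩
        rw [Function.surjInv_eq hf]
        exact hr
      · intro hq
        exact ⟨_, ⟨q, hq, rfl⟩, Function.surjInv_eq hf q⟩
    have hfin : Finite (Subgroup.closure (t : Set G)) := h.locfin t
    have h2 : ((Subgroup.closure (t : Set G) : Subgroup G) : Set G).Finite := Set.toFinite _
    have h3 := h2.image f
    rw [← Subgroup.coe_map, ht] at h3
    exact h3.to_subtype
  proper := by
    intro H hH
    have hne : H.comap f ≠ ⊤ := by
      intro h0
      apply hH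
      rw [← Subgroup.map_comap_eq_self_of_surjective hf H, h0,
        Subgroup.map_top_of_surjective f hf]
    obtain ⟨h1, h2⟩ := h.proper _ hne
    let f' : (H.comap f) →* H := (f.comp (H.comap f).subtype).codRestrict H (fun x => x.2)
    have hf' : Function.Surjective f' := by
      rintro ⟨q, hq⟩
      obtain ⟨g, rfl⟩ := hf q
      exact ⟨⟨g, hq⟩, rfl⟩
    refine ⟨Group.isSolvable_of_surjective hf', fun N hN hNt => ?_⟩
    have hNt' : N.comap f' ≠ ⊤ := by
      intro h0
      apply hNt
      rw [← Subgroup.map_comap_eq_self_of_surjective hf' N, h0,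
        Subgroup.map_top_of_surjective f' hf']
    obtain ⟨x, hx, hxy⟩ := h2 (N.comap f') (hN.comap f') hNt'
    refine ⟨f' x, hx, fun y => ?_⟩
    obtain ⟨y, rfl⟩ := hf' y
    have := hxy y
    rw [Subgroup.mem_comap] at this
    simpa using this

theorem isPerfect (h : Exm p G) : Group.IsPerfect G := ⟨h.perfect⟩

theorem not_solvable (h : Exm p G) : ¬ Group.IsSolvable G := by
  intro hs
  haveI := h.nontriv
  have := Group.IsSolvable.commutator_lt_top_of_nontrivial (G := G)
  rw [h.perfect] at this
  exact lt_irrefl _ this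

/-- a normal subgroup with solvable quotient is the whole group -/
theorem eq_top_of_solvable_quotient (h : Exm p G) (N : Subgroup G) [N.Normal]
    (hs : Group.IsSolvable (G ⧸ N)) : N = ⊤ := by
  by_contra hN
  haveI : Nontrivial (G ⧸ N) := QuotientGroup.nontrivial_iff.2 hN
  exact (h.map (QuotientGroup.mk' N) (QuotientGroup.mk'_surjective N)).not_solvable hs

/-- no proper subgroup of finite index -/
theorem eq_top_of_finiteIndex (h : Exm p G) (K : Subgroup G) [K.FiniteIndex] : K = ⊤ := by
  haveI : Fact p.Prime := ⟨h.prime⟩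
  have h1 : IsPGroup p (G ⧸ K.normalCore) := h.pgroup.to_quotient _
  haveI : Finite (G ⧸ K.normalCore) := Subgroup.finite_quotient_of_finiteIndex
  haveI := h1.isNilpotent
  have h2 : K.normalCore = ⊤ := h.eq_top_of_solvable_quotient _ inferInstance
  exact top_le_iff.1 (h2 ▸ K.normalCore_le)

/-- nontrivial proper subgroups have nontrivial centre -/
theorem exists_central (h : Exm p G) (H : Subgroup G) (hb : H ≠ ⊥) (ht : H ≠ ⊤) :
    ∃ x ∈ H, x ≠ 1 ∧ ∀ y ∈ H, x * y = y * x := by
  obtain ⟨-, h2⟩ := h.proper H ht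
  have hne : (⊥ : Subgroup H) ≠ ⊤ := by
    intro h0
    apply hb
    rw [Subgroup.eq_bot_iff_forall]
    intro x hx
    have : (⟨x, hx⟩ : H) ∈ (⊥ : Subgroup H) := h0 ▸ Subgroup.mem_top _
    rw [Subgroup.mem_bot] at this
    exact congrArg Subtype.val this
  obtain ⟨x, hx, hxy⟩ := h2 ⊥ inferInstance hne
  refine ⟨x.1, x.2, fun h0 => hx ?_, fun y hy => ?_⟩
  · rw [Subgroup.mem_bot]
    exact Subtype.ext h0
  · have h3 := hxy ⟨y, hy⟩
    rw [Subgroup.mem_bot] at h3
    have h4 : x.1 * y * x.1⁻¹ * y⁻¹ = 1 := congrArg Subtype.val h3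
    rw [mul_inv_eq_one, mul_inv_eq_iff_eq_mul] at h4
    exact h4

/-- a finite normal factor is central -/
theorem comm_le_of_finite (h : Exm p G) (N H : Subgroup G) [N.Normal] [H.Normal]
    (hf : (H.subgroupOf N).FiniteIndex) (hHt : H ≠ ⊤) : ⁅N, (⊤ : Subgroup G)⁆ ≤ H := by
  haveI : Nontrivial (G ⧸ H) := QuotientGroup.nontrivial_iff.2 hHt
  have hQ : Exm p (G ⧸ H) := h.map (QuotientGroup.mk' H) (QuotientGroup.mk'_surjective H)
  set N' : Subgroup (G ⧸ H) := N.map (QuotientGroup.mk' H) with hN'
  haveI : N'.Normal := Subgroup.Normal.map inferInstance _ (QuotientGroup.mk'_surjective H)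
  haveI : Finite N' := by
    haveI : Finite (N ⧸ H.subgroupOf N) := Subgroup.finite_quotient_of_finiteIndex
    let φ : N ⧸ H.subgroupOf N →* N' := QuotientGroup.lift _
      (((QuotientGroup.mk' H).comp N.subtype).codRestrict N' (fun x => ⟨x, x.2, rfl⟩)) (by
        intro x hx
        rw [MonoidHom.mem_ker]
        apply Subtype.ext
        exact (QuotientGroup.eq_one_iff x.1).2 hx)
    refine Finite.of_surjective φ ?_
    rintro ⟨_, ⟨x, hx, rfl⟩⟩
    exact ⟨QuotientGroup.mk ⟨x, hx⟩, rfl⟩
  haveI : Finite (MulAut N') := by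
    refine Finite.of_injective (fun e : MulAut N' => (e : N' → N')) ?_
    intro a b hab
    exact MulEquiv.ext (congrFun hab)
  have hk : (MulAut.conjNormal (H := N')).ker = ⊤ := by
    exact hQ.eq_top_of_finiteIndex _
  rw [Subgroup.commutator_le]
  intro x hx g _
  have h1 : (QuotientGroup.mk' H g) ∈ (MulAut.conjNormal (H := N')).ker := hk ▸ Subgroup.mem_top _
  rw [MonoidHom.mem_ker] at h1
  have h2 := congrArg (fun e : MulAut N' => ((e ⟨QuotientGroup.mk' H x, x, hx, rfl⟩ : N') : G ⧸ H)) h1
  simp only [MulAut.conjNormal_apply, MulAut.one_apply] at h2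
  rw [← QuotientGroup.eq_one_iff, ← QuotientGroup.mk'_apply, map_commutatorElement,
    commutatorElement_eq_one_iff_mul_comm]
  rw [mul_inv_eq_iff_eq_mul] at h2
  exact h2.symm

end Exm

theorem Dn_iSup {G : Type} [Group G] {ι : Type} [Nonempty ι] (A : ι → Subgroup G)
    (hA : Directed (· ≤ ·) A) : ∀ d, Dn d (⨆ i, A i) ≤ ⨆ i, Dn d (A i)
  | 0 => le_rfl
  | d + 1 => by
    have hD : Directed (· ≤ ·) (fun i => Dn d (A i)) := fun i j => by
      obtain ⟨k, hi, hj⟩ := hA i j
      exact ⟨k, Dn_mono hi d, Dn_mono hj d⟩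
    show ⁅Dn d (⨆ i, A i), Dn d (⨆ i, A i)⁆ ≤ ⨆ i, Dn (d + 1) (A i)
    refine (Subgroup.commutator_mono (Dn_iSup A hA d) (Dn_iSup A hA d)).trans ?_
    rw [Subgroup.commutator_le]
    intro x hx y hy
    obtain ⟨i, hi⟩ := (Subgroup.mem_iSup_of_directed hD).1 hx
    obtain ⟨j, hj⟩ := (Subgroup.mem_iSup_of_directed hD).1 hy
    obtain ⟨k, hik, hjk⟩ := hD i j
    exact Subgroup.mem_iSup_of_mem k (Subgroup.commutator_mem_commutator (hik hi) (hjk hj))

theorem countable_closure {G : Type} [Group G] {s : Set G} (hs : s.Countable) :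
    ((Subgroup.closure s : Subgroup G) : Set G).Countable := by
  haveI := hs.to_subtype
  haveI : Countable (FreeGroup s) := by
    unfold FreeGroup
    infer_instance
  rw [FreeGroup.closure_eq_range, MonoidHom.coe_range]
  exact Set.countable_range _

theorem exists_finset_commutator {G : Type} [Group G] (h : commutator G = ⊤) (x : G) :
    ∃ F : Finset G, x ∈ ⁅Subgroup.closure (F : Set G), Subgroup.closure (F : Set G)⁆ := by
  classical
  have hd : Directed (· ≤ ·) (fun F : Finset G => Subgroup.closure (F : Set G)) := by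
    intro s t
    exact ⟨s ∪ t, Subgroup.closure_mono (by simp), Subgroup.closure_mono (by simp)⟩
  have htop : ⨆ F : Finset G, Subgroup.closure (F : Set G) = ⊤ := by
    rw [eq_top_iff]
    intro y _
    exact Subgroup.mem_iSup_of_mem {y} (Subgroup.subset_closure (by simp))
  have h1 := Dn_iSup _ hd 1
  rw [htop] at h1
  have h2 : x ∈ Dn 1 (⊤ : Subgroup G) := by
    have h3 : x ∈ commutator G := h ▸ Subgroup.mem_top x
    exact h3
  have hD : Directed (· ≤ ·) (fun F : Finset G => Dn 1 (Subgroup.closure (F : Set G))) :=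
    fun i j => by
      obtain ⟨k, hi, hj⟩ := hd i j
      exact ⟨k, Dn_mono hi 1, Dn_mono hj 1⟩
  obtain ⟨F, hF⟩ := (Subgroup.mem_iSup_of_directed hD).1 (h1 h2)
  exact ⟨F, hF⟩

theorem exists_seq {α : Type} (a : α) (f : α → α) :
    ∃ C : ℕ → α, C 0 = a ∧ ∀ n, C (n + 1) = f (C n) :=
  ⟨fun n => f^[n] a, rfl, fun n => Function.iterate_succ_apply' f n a⟩

/-- the group is countable -/
theorem Exm.countable {p : ℕ} {G : Type} [Group G] (h : Exm p G) : Countable G := by
  classical
  have hF := exists_finset_commutator h.perfect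
  choose F hF using hF
  haveI := h.nontriv
  obtain ⟨x₀, hx₀⟩ := exists_ne (1 : G)
  obtain ⟨C, hC0, hCs⟩ := exists_seq (Subgroup.closure {x₀})
    (fun H : Subgroup G => Subgroup.closure ((H : Set G) ∪ ⋃ x ∈ (H : Set G), (F x : Set G)))
  have hcount : ∀ n, ((C n : Subgroup G) : Set G).Countable := by
    intro n
    induction n with
    | zero => rw [hC0]; exact countable_closure (Set.countable_singleton _)
    | succ n ih =>
      rw [hCs]
      refine countable_closure (ih.union ?_)
      exact ih.biUnion (fun x _ => (F x).countable_toSet)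
  have hmono : Monotone C := by
    refine monotone_nat_of_le_succ fun n => ?_
    rw [hCs]
    intro x hx
    exact Subgroup.subset_closure (Or.inl hx)
  have hmem : ∀ x, x ∈ ⨆ n, C n ↔ ∃ n, x ∈ C n := fun x =>
    Subgroup.mem_iSup_of_directed hmono.directed_le
  set H : Subgroup G := ⨆ n, C n with hH
  have hHc : (H : Set G).Countable := by
    have : (H : Set G) = ⋃ n, (C n : Set G) := by
      ext x
      simp only [SetLike.mem_coe, Set.mem_iUnion]
      exact hmem x
    rw [this]
    exact Set.countable_iUnion hcount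
  have hperf : H ≤ ⁅H, H⁆ := by
    intro x hx
    obtain ⟨n, hn⟩ := (hmem x).1 hx
    have h1 : Subgroup.closure (F x : Set G) ≤ H := by
      rw [Subgroup.closure_le]
      intro y hy
      refine (hmem y).2 ⟨n + 1, ?_⟩
      rw [hCs]
      exact Subgroup.subset_closure (Or.inr (Set.mem_biUnion hn hy))
    exact Subgroup.commutator_mono h1 h1 (hF x)
  have hDn : ∀ d, H ≤ Dn d H := by
    intro d
    induction d with
    | zero => exact le_rfl
    | succ d ih => exact hperf.trans (Subgroup.commutator_mono ih ih)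
  have htop : H = ⊤ := by
    by_contra hne
    obtain ⟨d, hd⟩ := (solvable_iff H).1 (h.proper H hne).1
    have h1 : H ≤ ⊥ := hd ▸ hDn d
    have h2 : x₀ ∈ H := (hmem _).2 ⟨0, by rw [hC0]; exact Subgroup.subset_closure rfl⟩
    exact hx₀ (Subgroup.mem_bot.1 (h1 h2))
  rw [htop, Subgroup.coe_top, Set.countable_univ_iff] at hHc
  exact hHc

/-- The bookkeeping lemma. -/
theorem bookkeep {G : Type} [Group G] [Countable G] [Nontrivial G]
    (hc : Subgroup.center G = ⊥)
    (hZ : ∀ H : Subgroup G, H ≠ ⊥ → H ≠ ⊤ → ∃ x ∈ H, x ≠ 1 ∧ ∀ y ∈ H, x * y = y * x)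
    (A : Subgroup G → Prop) (h0 : A ⊥) (h1 : ¬ A ⊤)
    (hU : ∀ c : ℕ → Subgroup G, Monotone c → (∀ n, A (c n)) → A (⨆ n, c n)) :
    ∃ (s : Finset G) (K : Subgroup G), A (Subgroup.closure (s : Set G)) ∧ K ≠ ⊤ ∧
      ∀ x, x ∉ K → ¬ A (Subgroup.closure (s : Set G) ⊔ Subgroup.closure {x}) := by
  classical
  by_contra hcon
  push Not at hcon
  have key : ∀ (s : {s : Finset G // A (Subgroup.closure (s : Set G))}) (h : G),
      ∃ t : {s : Finset G // A (Subgroup.closure (s : Set G))}, s.1 ⊆ t.1 ∧
        (h ≠ 1 → ∃ x ∈ t.1, x * h ≠ h * x) := by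
    intro s h
    by_cases hh : h = 1
    · exact ⟨s, subset_rfl, fun h' => absurd hh h'⟩
    · have hK : Subgroup.centralizer {h} ≠ ⊤ := by
        intro ht
        have : h ∈ Subgroup.center G := by
          rw [Subgroup.mem_center_iff]
          intro g
          have hg : g ∈ Subgroup.centralizer {h} := ht ▸ Subgroup.mem_top g
          rw [Subgroup.mem_centralizer_iff] at hg
          exact (hg h rfl).symm
        rw [hc, Subgroup.mem_bot] at this
        exact hh this
      obtain ⟨x, hx, hAx⟩ := hcon s.1 (Subgroup.centralizer {h}) s.2 hK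
      refine ⟨⟨insert x s.1, ?_⟩, Finset.subset_insert _ _, fun _ =>
        ⟨x, Finset.mem_insert_self _ _, fun he => hx ?_⟩⟩
      · rw [Finset.coe_insert, ← Set.union_singleton, Subgroup.closure_union]
        exact hAx
      · rw [Subgroup.mem_centralizer_iff]
        rintro _ rfl
        exact he.symm
  choose nxt hn1 hn2 using key
  obtain ⟨e, he⟩ := exists_surjective_nat G
  let F : ℕ → {s : Finset G // A (Subgroup.closure (s : Set G))} := fun n =>
    Nat.rec ⟨∅, by simpa using h0⟩ (fun n s => nxt s (e n)) n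
  have hFs : ∀ n, F (n + 1) = nxt (F n) (e n) := fun n => rfl
  have hmono : Monotone (fun n => Subgroup.closure ((F n).1 : Set G)) := by
    refine monotone_nat_of_le_succ fun n => Subgroup.closure_mono ?_
    rw [hFs]
    exact_mod_cast hn1 (F n) (e n)
  have hA := hU _ hmono (fun n => (F n).2)
  set H : Subgroup G := ⨆ n, Subgroup.closure ((F n).1 : Set G) with hH
  have hprop : ∀ h : G, h ≠ 1 → ∃ x ∈ H, x * h ≠ h * x := by
    intro h hh
    obtain ⟨n, rfl⟩ := he h
    obtain ⟨x, hx, hxh⟩ := hn2 (F n) (e n) hh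
    exact ⟨x, Subgroup.mem_iSup_of_mem (n + 1) (Subgroup.subset_closure (by rw [hFs]; exact hx)),
      hxh⟩
  have hbot : H ≠ ⊥ := by
    intro hb
    obtain ⟨h, hh⟩ := exists_ne (1 : G)
    obtain ⟨x, hx, hxh⟩ := hprop h hh
    rw [hb, Subgroup.mem_bot] at hx
    rw [hx] at hxh
    simp at hxh
  have htop : H ≠ ⊤ := fun ht => h1 (ht ▸ hA)
  obtain ⟨x, hx, hx1, hxy⟩ := hZ H hbot htop
  obtain ⟨y, hy, hyx⟩ := hprop x hx1
  exact hyx (hxy y hy).symm

end Pool.Agent.HL3218
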