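import Mathlib
import Pool.Agent.Work.MP_3218de_al.HL.Alg
import Pool.Agent.Work.MP_3218de_al.HL.Grp

set_option autoImplicit false
set_option linter.style.haveILetI false

/-!
# MP_3218de_al: left ideals and modules over the group algebra of an example
-/

namespace Pool.Agent.HL3218

open MonoidAlgebra

variable {p : ℕ} {G : Type} [Group G]

theorem Exm.torsion (h : Exm p G) (g : G) : IsOfFinOrder g := by
  obtain ⟨m, hm⟩ := h.pgroup g
  rw [isOfFinOrder_iff_pow_eq_one]
  exact ⟨p ^ m, pow_pos h.prime.pos m, hm⟩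

theorem Exm.Dn_top (h : Exm p G) : ∀ d, Dn d (⊤ : Subgroup G) = ⊤
  | 0 => rfl
  | d + 1 => by
    show ⁅Dn d (⊤ : Subgroup G), Dn d (⊤ : Subgroup G)⁆ = ⊤
    rw [h.Dn_top d]
    exact h.perfect

/-- `1 - g` is not a nonzero scalar modulo a left ideal -/
theorem WW_bot (h : Exm p G) [Fact p.Prime] (J : Ideal (MonoidAlgebra (ZMod p) G)) (g : G)
    (hz : gg (ZMod p) g - 1 ∈ WW J ⊥) : gg (ZMod p) g - 1 ∈ J := by
  unfold WW at hz
  obtain ⟨j, hj, w, hw, hjw⟩ := Submodule.mem_sup.1 hz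
  have hw' : ∃ c : ZMod p, w = c • (1 : MonoidAlgebra (ZMod p) G) := by
    have h1 : ((fun g => gg (ZMod p) g) '' (((⊥ : Subgroup G)) : Set G)) =
        {(1 : MonoidAlgebra (ZMod p) G)} := by
      rw [Subgroup.coe_bot, Set.image_singleton]
      simp only [gg_one]
    rw [h1, Submodule.mem_span_singleton] at hw
    obtain ⟨c, hc⟩ := hw
    exact ⟨c, hc.symm⟩
  obtain ⟨c, rfl⟩ := hw'
  have hj' : j ∈ J := hj
  -- gg g - (1 + c) ∈ J
  have h1 : ∀ m : ℕ, gg (ZMod p) (g ^ m) - ((1 + c) ^ m) • (1 : MonoidAlgebra (ZMod p) G) ∈ J := by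
    intro m
    induction m with
    | zero => rw [pow_zero, pow_zero, gg_one, one_smul, sub_self]; exact J.zero_mem
    | succ m ih =>
      have h2 : gg (ZMod p) (g ^ (m + 1)) - ((1 + c) ^ (m + 1)) • (1 : MonoidAlgebra (ZMod p) G) =
          gg (ZMod p) g * (gg (ZMod p) (g ^ m) - ((1 + c) ^ m) • 1) +
            ((1 + c) ^ m) • (gg (ZMod p) g - (1 + c) • (1 : MonoidAlgebra (ZMod p) G)) := by
        rw [pow_succ', gg_mul, mul_sub, smul_sub, mul_smul_comm, mul_one, smul_smul, ← pow_succ]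
        abel
      rw [h2]
      refine J.add_mem (J.mul_mem_left _ ih) ?_
      have h3 : gg (ZMod p) g - (1 + c) • (1 : MonoidAlgebra (ZMod p) G) = j := by
        rw [add_smul, one_smul, ← sub_sub, ← hjw]
        abel
      rw [h3]
      exact (J.restrictScalars (ZMod p)).smul_mem _ hj'
  obtain ⟨m, hm⟩ := h.pgroup g
  have h2 := h1 (p ^ m)
  rw [hm, gg_one, ZMod.pow_card_pow, add_smul, one_smul, sub_add_cancel_left] at h2
  have h3 : c • (1 : MonoidAlgebra (ZMod p) G) ∈ J := by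
    have := J.neg_mem h2
    rwa [neg_neg] at this
  rw [← hjw]
  exact J.add_mem hj' h3

/-- Theorem R: a left ideal modulo which the augmentation ideals of all members of an ascending
chain of normal subgroups are nilpotent contains the augmentation ideal. -/
theorem thmR (h : Exm p G) [Fact p.Prime] (hc : Subgroup.center G = ⊥) {ι : Type} [Nonempty ι]
    (N : ι → Subgroup G) (hN : ∀ i, (N i).Normal) (hd : Directed (· ≤ ·) N)
    (htop : ⨆ i, N i = ⊤)
    (J : Ideal (MonoidAlgebra (ZMod p) G)) (hJ : ∀ i, ∃ n, NilMod J (N i) n) (g : G) :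
    gg (ZMod p) g - 1 ∈ J := by
  by_contra hz
  haveI := h.countable
  haveI := h.nontriv
  obtain ⟨s, K, hs, hK, hsK⟩ := bookkeep hc (fun H hb ht => h.exists_central H hb ht)
    (fun H => gg (ZMod p) g - 1 ∉ WW J H)
    (fun h0 => hz (WW_bot h J g h0))
    (by
      rw [not_not]
      refine Submodule.sub_mem _ (gg_mem_WW J _ (Subgroup.mem_top g)) ?_
      rw [← gg_one]
      exact gg_mem_WW J _ (Subgroup.mem_top 1))
    (by
      intro c hc hn h0
      obtain ⟨n, hn'⟩ := mem_WW_iSup J c hc h0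
      exact hn n hn')
  simp only [not_not] at hsK
  haveI : Finite (Subgroup.closure (s : Set G)) := h.locfin s
  have hind : ∀ i, (K.subgroupOf (N i)).FiniteIndex := by
    intro i
    haveI := hN i
    obtain ⟨n, hn⟩ := hJ i
    exact alg_main h.torsion J _ (Subgroup.closure (s : Set G)) hs K hsK (N i) n hn
  obtain ⟨d, hd'⟩ := (solvable_iff K).1 (h.proper K hK).1
  have hsol : ∀ i, Dn d ⁅N i, (⊤ : Subgroup G)⁆ = ⊥ := by
    intro i
    haveI := hN i
    obtain ⟨H, h1, h2, h3, h4⟩ := km_normal (N i) K d hd' (hind i)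
    haveI := h1
    have hHt : H ≠ ⊤ := by
      intro ht
      rw [ht, h.Dn_top] at h4
      exact top_ne_bot h4
    rw [← le_bot_iff, ← h4]
    exact Dn_mono (h.comm_le_of_finite (N i) H h3 hHt) d
  have hA : Directed (· ≤ ·) (fun i => ⁅N i, (⊤ : Subgroup G)⁆) := fun i j => by
    obtain ⟨l, hi, hj⟩ := hd i j
    exact ⟨l, Subgroup.commutator_mono hi le_rfl, Subgroup.commutator_mono hj le_rfl⟩
  have hAt : (⊤ : Subgroup G) ≤ ⨆ i, ⁅N i, (⊤ : Subgroup G)⁆ := by
    have e : ⁅(⊤ : Subgroup G), (⊤ : Subgroup G)⁆ = ⊤ := h.perfect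
    have h5 : ⁅(⊤ : Subgroup G), (⊤ : Subgroup G)⁆ ≤ ⨆ i, ⁅N i, (⊤ : Subgroup G)⁆ := by
      rw [Subgroup.commutator_le]
      intro x hx y hy
      rw [← htop] at hx
      obtain ⟨i, hi⟩ := (Subgroup.mem_iSup_of_directed hd).1 hx
      exact Subgroup.mem_iSup_of_mem i (Subgroup.commutator_mem_commutator hi hy)
    rwa [e] at h5
  have h5 := (Dn_mono hAt d).trans (Dn_iSup _ hA d)
  rw [h.Dn_top] at h5
  have h6 : (⨆ i, Dn d ⁅N i, (⊤ : Subgroup G)⁆) ≤ ⊥ := iSup_le fun i => (hsol i).le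
  exact top_ne_bot (le_bot_iff.1 (h5.trans h6))

section modules

variable {M : Type} [AddCommGroup M] [Module (ZMod p) M] (ρ : Representation (ZMod p) G M)

/-- invariant subspaces -/
def Stab (A : Submodule (ZMod p) M) : Prop := ∀ g, ∀ v ∈ A, ρ g v ∈ A

/-- vectors fixed by `N` modulo `A` -/
def Fx (N : Subgroup G) (A : Submodule (ZMod p) M) : Submodule (ZMod p) M where
  carrier := {v | ∀ y ∈ N, ρ y v - v ∈ A}
  add_mem' := by
    intro a b ha hb y hy
    have : ρ y (a + b) - (a + b) = (ρ y a - a) + (ρ y b - b) := by rw [map_add]; abel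
    rw [this]
    exact A.add_mem (ha y hy) (hb y hy)
  zero_mem' := by
    intro y _
    rw [map_zero, sub_zero]
    exact A.zero_mem
  smul_mem' := by
    intro c a ha y hy
    rw [map_smul, ← smul_sub]
    exact A.smul_mem c (ha y hy)

theorem mem_Fx {N : Subgroup G} {A : Submodule (ZMod p) M} {v : M} :
    v ∈ Fx ρ N A ↔ ∀ y ∈ N, ρ y v - v ∈ A := Iff.rfl

/-- limit of the fixed vectors -/
def Lw (N : Subgroup G) (A : Submodule (ZMod p) M) : Submodule (ZMod p) M :=
  ⨆ n, (Fx ρ N)^[n] A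

variable {ρ}

theorem Stab.Fx {A : Submodule (ZMod p) M} (hA : Stab ρ A) (N : Subgroup G) [hN : N.Normal] :
    Stab ρ (Fx ρ N A) := by
  intro g v hv y hy
  have h1 : ρ y (ρ g v) = ρ g (ρ (g⁻¹ * y * g) v) := by
    rw [← Module.End.mul_apply, ← Module.End.mul_apply, ← map_mul, ← map_mul]
    congr 2
    group
  rw [h1, ← map_sub]
  refine hA g _ (hv _ ?_)
  have := hN.conj_mem y hy g⁻¹
  rwa [inv_inv] at this

theorem Stab.le_Fx {A : Submodule (ZMod p) M} (hA : Stab ρ A) (N : Subgroup G) :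
    A ≤ HL3218.Fx ρ N A := fun v hv y _ => A.sub_mem (hA y v hv) hv

theorem Fx_mono (N : Subgroup G) {A B : Submodule (ZMod p) M} (h : A ≤ B) :
    Fx ρ N A ≤ Fx ρ N B := fun _ hv y hy => h (hv y hy)

theorem Fx_anti {N N' : Subgroup G} (h : N ≤ N') (A : Submodule (ZMod p) M) :
    Fx ρ N' A ≤ Fx ρ N A := fun _ hv y hy => hv y (h hy)

theorem Stab.iter {A : Submodule (ZMod p) M} (hA : Stab ρ A) (N : Subgroup G) [N.Normal] :
    ∀ n, Stab ρ ((HL3218.Fx ρ N)^[n] A)
  | 0 => hA
  | n + 1 => by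
    rw [Function.iterate_succ_apply']
    exact (Stab.iter hA N n).Fx N

theorem iter_mono (N : Subgroup G) {A B : Submodule (ZMod p) M} (h : A ≤ B) :
    ∀ n, (Fx ρ N)^[n] A ≤ (Fx ρ N)^[n] B
  | 0 => h
  | n + 1 => by
    rw [Function.iterate_succ_apply', Function.iterate_succ_apply']
    exact Fx_mono N (iter_mono N h n)

theorem iter_anti {N N' : Subgroup G} (h : N ≤ N') (A : Submodule (ZMod p) M) :
    ∀ n, (Fx ρ N')^[n] A ≤ (Fx ρ N)^[n] A
  | 0 => le_rfl
  | n + 1 => by
    rw [Function.iterate_succ_apply', Function.iterate_succ_apply']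
    exact (Fx_anti h _).trans (Fx_mono N (iter_anti h A n))

theorem iter_monotone {A : Submodule (ZMod p) M} (hA : Stab ρ A) (N : Subgroup G) [N.Normal] :
    Monotone (fun n => (Fx ρ N)^[n] A) := by
  refine monotone_nat_of_le_succ fun n => ?_
  rw [Function.iterate_succ_apply']
  exact (hA.iter N n).le_Fx N

theorem mem_Lw {A : Submodule (ZMod p) M} (hA : Stab ρ A) (N : Subgroup G) [N.Normal] {v : M} :
    v ∈ Lw ρ N A ↔ ∃ n, v ∈ (Fx ρ N)^[n] A :=
  Submodule.mem_iSup_of_directed _ (iter_monotone hA N).directed_le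

theorem Stab.Lw {A : Submodule (ZMod p) M} (hA : Stab ρ A) (N : Subgroup G) [N.Normal] :
    Stab ρ (Lw ρ N A) := by
  intro g v hv
  rw [mem_Lw hA] at hv ⊢
  obtain ⟨n, hn⟩ := hv
  exact ⟨n, hA.iter N n g v hn⟩

theorem Lw_mono (N : Subgroup G) {A B : Submodule (ZMod p) M} (h : A ≤ B) :
    Lw ρ N A ≤ Lw ρ N B := iSup_mono fun n => iter_mono N h n

theorem Lw_anti {N N' : Subgroup G} (h : N ≤ N') (A : Submodule (ZMod p) M) :
    Lw ρ N' A ≤ Lw ρ N A := iSup_mono fun n => iter_anti h A n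

theorem U_mono (N : Subgroup G) {A B : Submodule (ZMod p) M} (h : A ≤ B) :
    ∀ k, (Lw ρ N)^[k] A ≤ (Lw ρ N)^[k] B
  | 0 => h
  | k + 1 => by
    rw [Function.iterate_succ_apply', Function.iterate_succ_apply']
    exact Lw_mono N (U_mono N h k)

theorem U_anti {N N' : Subgroup G} (h : N ≤ N') (A : Submodule (ZMod p) M) :
    ∀ k, (Lw ρ N')^[k] A ≤ (Lw ρ N)^[k] A
  | 0 => le_rfl
  | k + 1 => by
    rw [Function.iterate_succ_apply', Function.iterate_succ_apply']
    exact (Lw_anti h _).trans (Lw_mono N (U_anti h A k))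

theorem asAlg_gg [Fact p.Prime] (g : G) (v : M) : ρ.asAlgebraHom (gg (ZMod p) g) v = ρ g v := by
  unfold gg
  rw [Representation.asAlgebraHom_of]

theorem Stab.asAlg {A : Submodule (ZMod p) M} (hA : Stab ρ A) (s : MonoidAlgebra (ZMod p) G)
    {w : M} (hw : w ∈ A) : ρ.asAlgebraHom s w ∈ A := by
  induction s using MonoidAlgebra.induction_on with
  | of g => rw [Representation.asAlgebraHom_of]; exact hA g w hw
  | add a b ha hb => rw [map_add, LinearMap.add_apply]; exact A.add_mem ha hb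
  | smul c a ha => rw [map_smul, LinearMap.smul_apply]; exact A.smul_mem c ha

/-- the annihilator of a vector modulo an invariant subspace -/
def annJ {A : Submodule (ZMod p) M} (hA : Stab ρ A) (v : M) :
    Ideal (MonoidAlgebra (ZMod p) G) where
  carrier := {r | ρ.asAlgebraHom r v ∈ A}
  add_mem' := by
    intro a b ha hb
    show ρ.asAlgebraHom (a + b) v ∈ A
    rw [map_add, LinearMap.add_apply]
    exact A.add_mem ha hb
  zero_mem' := by
    show ρ.asAlgebraHom 0 v ∈ A
    rw [map_zero, LinearMap.zero_apply]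
    exact A.zero_mem
  smul_mem' := by
    intro s r hr
    show ρ.asAlgebraHom (s * r) v ∈ A
    rw [map_mul, Module.End.mul_apply]
    exact hA.asAlg s hr

theorem prod_mem [Fact p.Prime] (N : Subgroup G) : ∀ (l : List G), (∀ y ∈ l, y ∈ N) →
    ∀ (A : Submodule (ZMod p) M) (w : M), w ∈ (Fx ρ N)^[l.length] A →
      ρ.asAlgebraHom (l.map (fun y => gg (ZMod p) y - 1)).prod w ∈ A
  | [], _, A, w, hw => by
    simpa using hw
  | y :: l, hl, A, w, hw => by
    rw [List.length_cons, Function.iterate_succ_apply] at hw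
    have h1 := prod_mem N l (fun z hz => hl z (List.mem_cons_of_mem _ hz)) _ w hw
    rw [List.map_cons, List.prod_cons, map_mul, Module.End.mul_apply, map_sub, map_one,
      LinearMap.sub_apply, asAlg_gg, Module.End.one_apply]
    exact h1 y (hl y List.mem_cons_self)

/-- the relative form for one limit step -/
theorem relNN (h : Exm p G) [Fact p.Prime] (hc : Subgroup.center G = ⊥) {ι : Type} [Nonempty ι]
    (N : ι → Subgroup G) (hN : ∀ i, (N i).Normal) (hd : Directed (· ≤ ·) N)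
    (htop : ⨆ i, N i = ⊤) {A : Submodule (ZMod p) M} (hA : Stab ρ A) (v : M)
    (hv : ∀ i, v ∈ Lw ρ (N i) A) (g : G) : ρ g v - v ∈ A := by
  have h1 := thmR h hc N hN hd htop (annJ hA v) (fun i => by
    haveI := hN i
    obtain ⟨n, hn⟩ := (mem_Lw hA (N i)).1 (hv i)
    refine ⟨n, fun l hl hln r => ?_⟩
    show ρ.asAlgebraHom _ v ∈ A
    rw [map_mul, Module.End.mul_apply]
    refine prod_mem (N i) l hl A _ ?_
    rw [hln]
    exact (hA.iter (N i) n).asAlg r hn) g
  have h2 : ρ.asAlgebraHom (gg (ZMod p) g - 1) v ∈ A := h1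
  rw [map_sub, map_one, LinearMap.sub_apply, asAlg_gg, Module.End.one_apply] at h2
  exact h2

theorem perfect_step (hperf : commutator G = ⊤) {A : Submodule (ZMod p) M} (b : M)
    (h : ∀ g x, ρ x (ρ g b - b) - (ρ g b - b) ∈ A) (g : G) : ρ g b - b ∈ A := by
  let f : G →* Multiplicative (M ⧸ A) :=
    { toFun := fun g => Multiplicative.ofAdd (A.mkQ (ρ g b - b))
      map_one' := by
        rw [map_one, Module.End.one_apply, sub_self, map_zero]
        rfl
      map_mul' := by
        intro x g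
        rw [← ofAdd_add]
        congr 1
        rw [← map_add, ← sub_eq_zero, ← map_sub, Submodule.mkQ_apply,
          Submodule.Quotient.mk_eq_zero]
        have e : ρ (x * g) b - b - (ρ x b - b + (ρ g b - b)) =
            ρ x (ρ g b - b) - (ρ g b - b) := by
          rw [map_mul, Module.End.mul_apply, map_sub]
          abel
        rw [e]
        exact h g x }
  have h1 : g ∈ f.ker := Abelianization.commutator_subset_ker f (hperf ▸ Subgroup.mem_top g)
  rw [MonoidHom.mem_ker] at h1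
  have h2 : A.mkQ (ρ g b - b) = 0 := h1
  rwa [Submodule.mkQ_apply, Submodule.Quotient.mk_eq_zero] at h2

/-- The module theorem. -/
theorem main_mod (h : Exm p G) [Fact p.Prime] (hc : Subgroup.center G = ⊥) {ι : Type}
    [Nonempty ι] (N : ι → Subgroup G) (hN : ∀ i, (N i).Normal) (hd : Directed (· ≤ ·) N)
    (htop : ⨆ i, N i = ⊤) : ∀ (k : ℕ) (A : Submodule (ZMod p) M), Stab ρ A → ∀ b : M,
      (∀ i, b ∈ (Lw ρ (N i))^[k] A) → ∀ g, ρ g b - b ∈ A
  | 0, A, hA, b, hb, g => by
    obtain ⟨i⟩ := ‹Nonempty ι›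
    have hb' : b ∈ A := hb i
    exact A.sub_mem (hA g b hb') hb'
  | k + 1, A, hA, b, hb, g => by
    have h1 : ∀ i g, ρ g b - b ∈ Lw ρ (N i) A := by
      intro i
      haveI := hN i
      refine main_mod h hc N hN hd htop k (Lw ρ (N i) A) (hA.Lw (N i)) b (fun j => ?_)
      obtain ⟨l, hi, hj⟩ := hd i j
      have h2 := hb l
      rw [Function.iterate_succ_apply] at h2
      exact U_anti hj _ k (U_mono (N l) (Lw_anti hi A) k h2)
    exact perfect_step h.perfect b (fun g x => relNN h hc N hN hd htop hA _ (fun i => h1 i g) x) g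

end modules

end Pool.Agent.HL3218
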