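import Mathlib
import Pool.Agent.Work.MP_3218de_al.HL.Mod

set_option autoImplicit false
set_option linter.style.haveILetI false

/-!
# MP_3218de_al: the hypercentral length of normal closures of finite sets
-/

namespace Pool.Agent.HL3218

open scoped commutatorElement

/-- elements of the group `N` all of whose commutators with elements of `N` lie in `A` -/
def step {N : Type} [Group N] (A : Set N) : Set N := {x | ∀ y, x * y * x⁻¹ * y⁻¹ ∈ A}

/-- the term with index `ω a` of the upper central series of `N` -/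
def Zom (N : Type) [Group N] : ℕ → Set N
  | 0 => {1}
  | a + 1 => ⋃ m : ℕ, step^[m] (Zom N a)

section basic

theorem step_map {N N' : Type} [Group N] [Group N'] (f : N →* N') (hf : Function.Surjective f)
    {A : Set N} {A' : Set N'} (h : ∀ x ∈ A, f x ∈ A') : ∀ x ∈ step A, f x ∈ step A' := by
  intro x hx y
  obtain ⟨y, rfl⟩ := hf y
  have := h _ (hx y)
  simpa using this

theorem iter_step_map {N N' : Type} [Group N] [Group N'] (f : N →* N')
    (hf : Function.Surjective f) {A : Set N} {A' : Set N'} (h : ∀ x ∈ A, f x ∈ A') :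
    ∀ m : ℕ, ∀ x ∈ step^[m] A, f x ∈ step^[m] A'
  | 0 => h
  | m + 1 => by
    rw [Function.iterate_succ_apply', Function.iterate_succ_apply']
    exact step_map f hf (iter_step_map f hf h m)

theorem Zom_map {N N' : Type} [Group N] [Group N'] (f : N →* N') (hf : Function.Surjective f) :
    ∀ a : ℕ, ∀ x ∈ Zom N a, f x ∈ Zom N' a
  | 0 => by
    rintro x hx
    have : x = 1 := hx
    rw [this, map_one]
    rfl
  | a + 1 => by
    intro x hx
    obtain ⟨m, hm⟩ := Set.mem_iUnion.1 hx
    exact Set.mem_iUnion.2 ⟨m, iter_step_map f hf (Zom_map f hf a) m x hm⟩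

theorem Zom_trivial {N : Type} [Group N] (hc : Subgroup.center N = ⊥) :
    ∀ a : ℕ, Zom N a = {1}
  | 0 => rfl
  | a + 1 => by
    have h1 : ∀ m : ℕ, step^[m] ({1} : Set N) = {1} := by
      intro m
      induction m with
      | zero => rfl
      | succ m ih =>
        rw [Function.iterate_succ_apply', ih]
        ext x
        constructor
        · intro hx
          have : x ∈ Subgroup.center N := by
            rw [Subgroup.mem_center_iff]
            intro y
            have h2 : x * y * x⁻¹ * y⁻¹ = 1 := hx y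
            rw [mul_inv_eq_one, mul_inv_eq_iff_eq_mul] at h2
            exact h2.symm
          rw [hc, Subgroup.mem_bot] at this
          exact this
        · intro hx
          have hx' : x = 1 := hx
          intro y
          rw [hx']
          simp
    show ⋃ m : ℕ, step^[m] (Zom N a) = {1}
    rw [Zom_trivial hc a]
    simp only [h1]
    exact Set.iUnion_const _

variable {G : Type} [Group G]

/-- relative version of `step` -/
def stepS (N : Subgroup G) (A : Set G) : Set G := {x | ∀ y ∈ N, x * y * x⁻¹ * y⁻¹ ∈ A}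

/-- relative version of `Zom` -/
def ZS (N : Subgroup G) : ℕ → Set G
  | 0 => {1}
  | a + 1 => ⋃ m : ℕ, (stepS N)^[m] (ZS N a)

theorem stepS_mono {N N' : Subgroup G} (h : N ≤ N') {A B : Set G} (hA : A ⊆ B) :
    stepS N' A ⊆ stepS N B := fun _ hx y hy => hA (hx y (h hy))

theorem iter_stepS_mono {N N' : Subgroup G} (h : N ≤ N') {A B : Set G} (hA : A ⊆ B) :
    ∀ m : ℕ, (stepS N')^[m] A ⊆ (stepS N)^[m] B
  | 0 => hA
  | m + 1 => by
    rw [Function.iterate_succ_apply', Function.iterate_succ_apply']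
    exact stepS_mono h (iter_stepS_mono h hA m)

theorem ZS_anti {N N' : Subgroup G} (h : N ≤ N') : ∀ a : ℕ, ZS N' a ⊆ ZS N a
  | 0 => subset_rfl
  | a + 1 => Set.iUnion_mono fun m => iter_stepS_mono h (ZS_anti h a) m

theorem step_ZS (N : Subgroup G) {A : Set N} {B : Set G} (h : ∀ x ∈ A, (x : G) ∈ B) :
    ∀ m : ℕ, ∀ x ∈ step^[m] A, (x : G) ∈ (stepS N)^[m] B
  | 0 => h
  | m + 1 => by
    rw [Function.iterate_succ_apply', Function.iterate_succ_apply']
    intro x hx y hy
    exact step_ZS N h m _ (hx ⟨y, hy⟩)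

theorem Zom_ZS (N : Subgroup G) : ∀ a : ℕ, ∀ x ∈ Zom N a, (x : G) ∈ ZS N a
  | 0 => by
    intro x hx
    have : x = 1 := hx
    rw [this]
    rfl
  | a + 1 => by
    intro x hx
    obtain ⟨m, hm⟩ := Set.mem_iUnion.1 hx
    exact Set.mem_iUnion.2 ⟨m, step_ZS N (Zom_ZS N a) m x hm⟩

end basic

variable {p : ℕ} {G : Type} [Group G]

theorem key_abs {W : Type} [AddCommGroup W] [Module (ZMod p) W]
    (ρ : Representation (ZMod p) G W) (e : W → G) (he : ∀ w, e w = 1 → w = 0)
    (hadd : ∀ w w', e (w + w') = e w * e w') (hρ : ∀ g w, e (ρ g w) = g * e w * g⁻¹)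
    (N : Subgroup G) : ∀ (k : ℕ) (w : W), e w ∈ ZS N k → w ∈ (Lw ρ N)^[k] ⊥ := by
  have he0 : e 0 = 1 := by
    have := hadd 0 0
    rw [add_zero] at this
    exact left_eq_mul.1 this
  have hneg : ∀ w, e (-w) = (e w)⁻¹ := by
    intro w
    rw [eq_inv_iff_mul_eq_one, ← hadd, neg_add_cancel, he0]
  intro k
  induction k with
  | zero =>
    intro w hw
    exact he w hw
  | succ k ih =>
    intro w hw
    rw [Function.iterate_succ_apply']
    obtain ⟨m, hm⟩ := Set.mem_iUnion.1 hw
    have h2 : ∀ (m : ℕ) (w : W), e w ∈ (stepS N)^[m] (ZS N k) →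
        w ∈ (Fx ρ N)^[m] ((Lw ρ N)^[k] ⊥) := by
      intro m
      induction m with
      | zero => exact ih
      | succ m ihm =>
        intro w hw
        rw [Function.iterate_succ_apply'] at hw ⊢
        intro y hy
        have h3 := hw y hy
        have h4 : e (w - ρ y w) = e w * y * (e w)⁻¹ * y⁻¹ := by
          rw [sub_eq_add_neg, hadd, hneg, hρ]
          group
        rw [← h4] at h3
        have h5 := ihm _ h3
        rw [← neg_sub]
        exact Submodule.neg_mem _ h5
    exact (le_iSup (fun n => (Fx ρ N)^[n] ((Lw ρ N)^[k] ⊥)) m) (h2 m w hm)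

/-- the representation given by additive maps -/
noncomputable def mkRep {W : Type} [AddCommGroup W] [Module (ZMod p) W] (c : G → W →+ W)
    (h1 : ∀ w, c 1 w = w) (h2 : ∀ g k w, c (g * k) w = c g (c k w)) :
    Representation (ZMod p) G W where
  toFun := fun g => AddMonoidHom.toZModLinearMap p (c g)
  map_one' := LinearMap.ext fun w => h1 w
  map_mul' := fun g k => LinearMap.ext fun w => h2 g k w

theorem fixed_abs2 (h : Exm p G) [hpf : Fact p.Prime] (hc : Subgroup.center G = ⊥) {ι : Type}
    [Nonempty ι] (N : ι → Subgroup G) (hN : ∀ i, (N i).Normal) (hd : Directed (· ≤ ·) N)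
    (htop : ⨆ i, N i = ⊤) {W : Type} [AddCommGroup W] [Module (ZMod p) W]
    (c : G → W →+ W) (hc1 : ∀ v, c 1 v = v) (hcm : ∀ g k v, c (g * k) v = c g (c k v))
    (e : W → G) (he : ∀ w, e w = 1 → w = 0) (hadd : ∀ w w', e (w + w') = e w * e w')
    (hec : ∀ g v, e (c g v) = g * e v * g⁻¹) (a : ℕ)
    (hZ : ∀ i v, e v ∈ ZS (N i) a) (v : W) : e v ∈ Subgroup.center G := by
  rw [Subgroup.mem_center_iff]
  intro g
  have h1 := main_mod (ρ := mkRep (p := p) c hc1 hcm) h hc N hN hd htop a ⊥ (fun g w hw => by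
    rw [Submodule.mem_bot] at hw ⊢
    rw [hw, map_zero]) v
    (fun i => key_abs (mkRep (p := p) c hc1 hcm) e he hadd (fun g w => hec g w) (N i) a _
      (hZ i v)) g
  rw [Submodule.mem_bot, sub_eq_zero] at h1
  have h2 := hec g v
  have h4 : c g v = v := h1
  rw [h4] at h2
  rw [eq_mul_inv_iff_mul_eq] at h2
  exact h2.symm

theorem fixed_abs (h : Exm p G) [hpf : Fact p.Prime] (hc : Subgroup.center G = ⊥) {ι : Type}
    [Nonempty ι] (N : ι → Subgroup G) (hN : ∀ i, (N i).Normal) (hd : Directed (· ≤ ·) N)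
    (htop : ⨆ i, N i = ⊤) {V : Type} [CommGroup V] (hp : ∀ v : V, v ^ p = 1)
    (c : G → V →* V) (hc1 : ∀ v, c 1 v = v) (hcm : ∀ g k v, c (g * k) v = c g (c k v))
    (e : V →* G) (he : Function.Injective e) (hec : ∀ g v, e (c g v) = g * e v * g⁻¹) (a : ℕ)
    (hZ : ∀ i v, e v ∈ ZS (N i) a) (v : V) : e v ∈ Subgroup.center G := by
  letI : Module (ZMod p) (Additive V) := AddCommGroup.zmodModule (n := p) (fun x => by
    have : (Additive.toMul x : V) ^ p = 1 := hp _
    exact congrArg Additive.ofMul this)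
  exact fixed_abs2 h hc N hN hd htop (W := Additive V) (fun g => MonoidHom.toAdditive (c g))
    (fun v => congrArg Additive.ofMul (hc1 v.toMul))
    (fun g k v => congrArg Additive.ofMul (hcm g k v.toMul))
    (fun w => e w.toMul) (fun w hw => by
      have h1 : w.toMul = (1 : V) := he (by rw [map_one]; exact hw)
      exact h1)
    (fun w w' => map_mul e w.toMul w'.toMul) (fun g w => hec g w.toMul) a
    (fun i v => hZ i v.toMul) (Additive.ofMul v)

/-- A normal elementary abelian subgroup which lies in `Z_{ωa}` of all members of an ascending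
chain of normal subgroups with union `G` is central. -/
theorem fixed_of_zom (h : Exm p G) [hpf : Fact p.Prime] (hc : Subgroup.center G = ⊥) {ι : Type}
    [Nonempty ι] (N : ι → Subgroup G) (hN : ∀ i, (N i).Normal) (hd : Directed (· ≤ ·) N)
    (htop : ⨆ i, N i = ⊤) (V : Subgroup G) [hVn : V.Normal]
    (hV : ∀ x ∈ V, ∀ y ∈ V, x * y = y * x) (hp : ∀ x ∈ V, x ^ p = 1) (a : ℕ)
    (hZ : ∀ i, ∀ v ∈ V, v ∈ ZS (N i) a) : V ≤ Subgroup.center G := by
  letI : CommGroup V :=
    { (inferInstance : Group V) with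
      mul_comm := fun x y => Subtype.ext (hV x x.2 y y.2) }
  intro v hv
  exact fixed_abs h hc N hN hd htop (V := V) (fun v => Subtype.ext (hp v v.2))
    (fun g => ((MulAut.conjNormal g : MulAut V) : V →* V))
    (fun v => by
      show (MulAut.conjNormal (1 : G) : MulAut V) v = v
      rw [map_one]
      rfl)
    (fun g k v => by
      show (MulAut.conjNormal (g * k) : MulAut V) v = (MulAut.conjNormal g : MulAut V)
            ((MulAut.conjNormal k : MulAut V) v)
      rw [map_mul]
      rfl) V.subtype V.subtype_injective (fun g v => MulAut.conjNormal_apply g v) a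
    (fun i v => hZ i v v.2) ⟨v, hv⟩

theorem Dn_normal (N : Subgroup G) (hN : N.Normal) : ∀ d, (Dn d N).Normal
  | 0 => hN
  | d + 1 => by
    haveI := Dn_normal N hN d
    exact Subgroup.commutator_normal _ _

/-- a nontrivial solvable normal subgroup of a p-group contains a nontrivial elementary abelian
normal subgroup -/
theorem exists_elementary (hpg : IsPGroup p G) (N : Subgroup G) (hN : N.Normal)
    (hb : N ≠ ⊥) (hs : Group.IsSolvable N) : ∃ V : Subgroup G, V.Normal ∧ V ≤ N ∧ V ≠ ⊥ ∧
      (∀ x ∈ V, ∀ y ∈ V, x * y = y * x) ∧ ∀ x ∈ V, x ^ p = 1 := by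
  classical
  have hex := (solvable_iff N).1 hs
  obtain ⟨e, he, hmin⟩ : ∃ e, Dn e N ≠ ⊥ ∧ Dn (e + 1) N = ⊥ := by
    have h1 := Nat.find_spec hex
    have h2 : Nat.find hex ≠ 0 := by
      intro h0
      rw [h0] at h1
      exact hb h1
    obtain ⟨e, he⟩ := Nat.exists_eq_succ_of_ne_zero h2
    refine ⟨e, Nat.find_min hex (by omega), ?_⟩
    rw [he] at h1
    exact h1
  have hE : ∀ x ∈ Dn e N, ∀ y ∈ Dn e N, x * y = y * x := by
    intro x hx y hy
    have h1 := Subgroup.commutator_mem_commutator hx hy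
    have h2 : ⁅x, y⁆ ∈ (⊥ : Subgroup G) := hmin ▸ h1
    exact commutatorElement_eq_one_iff_mul_comm.1 (Subgroup.mem_bot.1 h2)
  have hEn := Dn_normal N hN e
  have hEN : ∀ d, Dn d N ≤ N := by
    intro d
    induction d with
    | zero => exact le_rfl
    | succ d ih =>
      refine (Subgroup.commutator_mono ih ih).trans ?_
      exact Subgroup.commutator_le_self N
  let V : Subgroup G :=
    { carrier := {v | v ∈ Dn e N ∧ v ^ p = 1}
      mul_mem' := by
        rintro a b ⟨ha, ha'⟩ ⟨hb, hb'⟩
        refine ⟨mul_mem ha hb, ?_⟩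
        have : Commute a b := hE a ha b hb
        rw [this.mul_pow, ha', hb', one_mul]
      one_mem' := ⟨one_mem _, one_pow _⟩
      inv_mem' := by
        rintro a ⟨ha, ha'⟩
        refine ⟨inv_mem ha, ?_⟩
        rw [inv_pow, ha', inv_one] }
  refine ⟨V, ⟨?_⟩, ?_, ?_, ?_, ?_⟩
  · rintro v ⟨hv, hv'⟩ g
    refine ⟨hEn.conj_mem v hv g, ?_⟩
    rw [conj_pow, hv', mul_one, mul_inv_cancel]
  · exact fun v hv => hEN e hv.1
  · obtain ⟨w', hw'⟩ := Subgroup.ne_bot_iff_exists_ne_one.1 he
    obtain ⟨w, hw, hw1⟩ : ∃ w : G, w ∈ Dn e N ∧ w ≠ 1 :=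
      ⟨w'.1, w'.2, fun h0 => hw' (Subtype.ext h0)⟩
    have hex' : ∃ m, w ^ p ^ m = 1 := hpg w
    have h1 := Nat.find_spec hex'
    have h2 : Nat.find hex' ≠ 0 := by
      intro h0
      rw [h0, pow_zero, pow_one] at h1
      exact hw1 h1
    obtain ⟨m, hm⟩ := Nat.exists_eq_succ_of_ne_zero h2
    have h3 : w ^ p ^ m ≠ 1 := Nat.find_min hex' (by omega)
    intro h0
    have h4 : w ^ p ^ m ∈ V := by
      refine ⟨pow_mem hw _, ?_⟩
      rw [← pow_mul, ← pow_succ]
      rw [hm] at h1
      exact h1
    rw [h0, Subgroup.mem_bot] at h4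
    exact h3 h4
  · exact fun x hx y hy => hE x hx.1 y hy.1
  · exact fun x hx => hx.2

/-- all normal closures of finite sets have hypercentral length at most `ω a` -/
def Bdd (a : ℕ) (Q : Type) [Group Q] : Prop :=
  ∀ S : Finset Q, Zom (Subgroup.normalClosure (S : Set Q)) a = Set.univ

theorem Bdd.map {a : ℕ} {Q Q' : Type} [Group Q] [Group Q'] (h : Bdd a Q) (f : Q →* Q')
    (hf : Function.Surjective f) : Bdd a Q' := by
  classical
  intro S
  let T : Finset Q := S.image (Function.surjInv hf)
  have hT : (Subgroup.normalClosure (T : Set Q)).map f = Subgroup.normalClosure (S : Set Q') := by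
    rw [Subgroup.map_normalClosure _ f hf]
    congr 1
    ext q
    simp only [Set.mem_image, Finset.mem_coe, T, Finset.mem_image]
    constructor
    · rintro ⟨_, ⟨r, hr, rfl⟩, rfl⟩
      rw [Function.surjInv_eq hf]
      exact hr
    · intro hq
      exact ⟨_, ⟨q, hq, rfl⟩, Function.surjInv_eq hf q⟩
  rw [← hT]
  let f' : Subgroup.normalClosure (T : Set Q) →* (Subgroup.normalClosure (T : Set Q)).map f :=
    f.subgroupMap _
  have hf' : Function.Surjective f' := f.subgroupMap_surjective _
  refine Set.eq_univ_of_forall fun x => ?_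
  obtain ⟨y, rfl⟩ := hf' x
  exact Zom_map f' hf' a y (by rw [h T]; exact Set.mem_univ y)

theorem not_bdd_of_center (h : Exm p G) (hc : Subgroup.center G = ⊥) (a : ℕ) : ¬ Bdd a G := by
  classical
  intro hb
  haveI : Fact p.Prime := ⟨h.prime⟩
  haveI := h.nontriv
  obtain ⟨x, hx⟩ := exists_ne (1 : G)
  have hne : ∀ S : Finset G, Subgroup.normalClosure (S : Set G) ≠ ⊤ := by
    intro S hS
    have h1 := hb S
    rw [hS, Zom_trivial] at h1
    · have h2 : (⟨x, Subgroup.mem_top x⟩ : (⊤ : Subgroup G)) ∈ ({1} : Set (⊤ : Subgroup G)) :=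
        h1 ▸ Set.mem_univ _
      exact hx (congrArg Subtype.val h2)
    · rw [Subgroup.eq_bot_iff_forall]
      intro z hz
      rw [Subgroup.mem_center_iff] at hz
      have : (z : G) ∈ Subgroup.center G := by
        rw [Subgroup.mem_center_iff]
        intro g
        exact congrArg Subtype.val (hz ⟨g, Subgroup.mem_top g⟩)
      rw [hc, Subgroup.mem_bot] at this
      exact Subtype.ext this
  let N : Finset G → Subgroup G := fun S => Subgroup.normalClosure (S : Set G)
  have hN : ∀ S, (N S).Normal := fun S => Subgroup.normalClosure_normal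
  have hmono : ∀ S T : Finset G, S ⊆ T → N S ≤ N T := fun S T hST =>
    Subgroup.normalClosure_mono (by exact_mod_cast hST)
  have hd : Directed (· ≤ ·) N := fun S T =>
    ⟨S ∪ T, hmono _ _ Finset.subset_union_left, hmono _ _ Finset.subset_union_right⟩
  have hmem : ∀ (S : Finset G) (y : G), y ∈ S → y ∈ N S := fun S y hy =>
    Subgroup.subset_normalClosure hy
  have htop : ⨆ S, N S = ⊤ := by
    rw [eq_top_iff]
    intro y _
    exact Subgroup.mem_iSup_of_mem {y} (hmem _ _ (Finset.mem_singleton_self y))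
  have hx0 : N {x} ≠ ⊥ := by
    intro h0
    have := hmem {x} x (Finset.mem_singleton_self x)
    rw [h0, Subgroup.mem_bot] at this
    exact hx this
  obtain ⟨V, hVn, hVN, hVb, hVc, hVp⟩ := exists_elementary h.pgroup (N {x}) (hN _) hx0
    (h.proper _ (hne {x})).1
  have hle := fixed_of_zom h hc N hN hd htop V hVc hVp a (by
    intro S v hv
    have h1 : N S ≤ N (insert x S) := hmono _ _ (Finset.subset_insert _ _)
    have h2 : v ∈ N (insert x S) := hmono {x} _ (by simp) (hVN hv)
    refine ZS_anti h1 a (Zom_ZS (N (insert x S)) a ⟨v, h2⟩ ?_)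
    have h3 : Zom (N (insert x S)) a = Set.univ := hb _
    rw [h3]
    exact Set.mem_univ _)
  rw [hc, le_bot_iff] at hle
  exact hVb hle

theorem not_bdd (h : Exm p G) (a : ℕ) : ¬ Bdd a G := by
  intro hb
  haveI := h.isPerfect
  have hc : Subgroup.center (G ⧸ Subgroup.center G) = ⊥ :=
    Group.IsPerfect.center_quotient_center_eq_bot G
  have hne : Subgroup.center G ≠ ⊤ := by
    intro h0
    refine h.not_solvable ?_
    letI : CommGroup G :=
      { (inferInstance : Group G) with
        mul_comm := fun x y => by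
          have : y ∈ Subgroup.center G := h0 ▸ Subgroup.mem_top y
          exact Subgroup.mem_center_iff.1 this x }
    infer_instance
  haveI : Nontrivial (G ⧸ Subgroup.center G) := QuotientGroup.nontrivial_iff.2 hne
  exact not_bdd_of_center (h.map (QuotientGroup.mk' _) (QuotientGroup.mk'_surjective _)) hc a
    (hb.map (QuotientGroup.mk' _) (QuotientGroup.mk'_surjective _))

/-- The main theorem. -/
theorem main (h : Exm p G) (M : Subgroup G) [M.Normal] (hM : M ≠ ⊤) (a : ℕ) :
    ∃ S : Finset (G ⧸ M), Zom (Subgroup.normalClosure (S : Set (G ⧸ M))) a ≠ Set.univ := by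
  haveI : Nontrivial (G ⧸ M) := QuotientGroup.nontrivial_iff.2 hM
  have h1 := not_bdd (h.map (QuotientGroup.mk' M) (QuotientGroup.mk'_surjective M)) a
  unfold Bdd at h1
  push Not at h1
  exact h1

end Pool.Agent.HL3218
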