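import Mathlib
import Pool.Agent.Work.MP_3218de_al.HL.Main

set_option autoImplicit false
set_option linter.style.haveILetI false

/-!
# MP_3218de_al: the local form of the theorem
-/

namespace Pool.Agent.HL3218

open scoped commutatorElement

section normality

variable {G : Type} [Group G]

theorem stepS_coe (N H : Subgroup G) [H.Normal] : stepS N (H : Set G) = (Cn N H : Set G) := by
  ext x
  rw [SetLike.mem_coe, mem_Cn]
  rfl

theorem Cn_normal (N H : Subgroup G) [hN : N.Normal] [hH : H.Normal] : (Cn N H).Normal := by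
  refine ⟨fun x hx g => ?_⟩
  rw [mem_Cn] at hx ⊢
  intro c hc
  have h1 : g⁻¹ * c * g ∈ N := by
    have := hN.conj_mem c hc g⁻¹
    rwa [inv_inv] at this
  have h2 := hH.conj_mem _ (hx _ h1) g
  have h3 : ⁅g * x * g⁻¹, c⁆ = g * ⁅x, g⁻¹ * c * g⁆ * g⁻¹ := by
    simp only [commutatorElement_def]
    group
  rw [h3]
  exact h2

theorem le_Cn_self (N H : Subgroup G) [hH : H.Normal] : H ≤ Cn N H := by
  intro x hx
  rw [mem_Cn]
  intro c _
  rw [commutatorElement_def]
  have h1 : c * x⁻¹ * c⁻¹ ∈ H := hH.conj_mem _ (inv_mem hx) c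
  have h2 : x * c * x⁻¹ * c⁻¹ = x * (c * x⁻¹ * c⁻¹) := by group
  rw [h2]
  exact mul_mem hx h1

/-- the relative series consists of normal subgroups -/
theorem ZS_normal (N : Subgroup G) [N.Normal] : ∀ a : ℕ,
    ∃ H : Subgroup G, H.Normal ∧ (H : Set G) = ZS N a
  | 0 => ⟨⊥, inferInstance, by simp [ZS]⟩
  | a + 1 => by
    obtain ⟨H, hH, hHZ⟩ := ZS_normal N a
    have h1 : ∀ m : ℕ, ∃ K : Subgroup G, K.Normal ∧ (K : Set G) = (stepS N)^[m] (ZS N a) := by
      intro m
      induction m with
      | zero => exact ⟨H, hH, hHZ⟩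
      | succ m ih =>
        obtain ⟨K, hK, hKZ⟩ := ih
        haveI := hK
        exact ⟨Cn N K, Cn_normal N K, by
          rw [Function.iterate_succ_apply', ← hKZ, stepS_coe]⟩
    choose K hK hKZ using h1
    have hmono : Monotone K := by
      refine monotone_nat_of_le_succ fun m => ?_
      haveI := hK m
      have h2 : (K (m + 1) : Set G) = (Cn N (K m) : Set G) := by
        rw [hKZ, Function.iterate_succ_apply', ← hKZ, stepS_coe]
      have h3 : K (m + 1) = Cn N (K m) := SetLike.coe_injective h2
      rw [h3]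
      exact le_Cn_self N (K m)
    refine ⟨⨆ m, K m, ?_, ?_⟩
    · haveI := hK
      infer_instance
    · ext x
      rw [SetLike.mem_coe, Subgroup.mem_iSup_of_directed hmono.directed_le]
      show _ ↔ x ∈ ⋃ m : ℕ, (stepS N)^[m] (ZS N a)
      rw [Set.mem_iUnion]
      refine exists_congr fun m => ?_
      rw [← hKZ, SetLike.mem_coe]

theorem ZS_top_trivial (hc : Subgroup.center G = ⊥) : ∀ a : ℕ, ZS (⊤ : Subgroup G) a = {1}
  | 0 => rfl
  | a + 1 => by
    have h1 : ∀ m : ℕ, (stepS (⊤ : Subgroup G))^[m] ({1} : Set G) = {1} := by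
      intro m
      induction m with
      | zero => rfl
      | succ m ih =>
        rw [Function.iterate_succ_apply', ih]
        ext x
        constructor
        · intro hx
          have : x ∈ Subgroup.center G := by
            rw [Subgroup.mem_center_iff]
            intro y
            have h2 : x * y * x⁻¹ * y⁻¹ = 1 := hx y (Subgroup.mem_top y)
            rw [mul_inv_eq_one, mul_inv_eq_iff_eq_mul] at h2
            exact h2.symm
          rw [hc, Subgroup.mem_bot] at this
          exact this
        · intro hx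
          have hx' : x = 1 := hx
          intro y _
          rw [hx']
          simp
    show ⋃ m : ℕ, (stepS (⊤ : Subgroup G))^[m] (ZS (⊤ : Subgroup G) a) = {1}
    rw [ZS_top_trivial hc a]
    simp only [h1]
    exact Set.iUnion_const _

end normality

variable {p : ℕ} {G : Type} [Group G]

theorem loc_center_trivial (h : Exm p G) (hc : Subgroup.center G = ⊥) (a : ℕ) (x : G)
    (hx : ∀ S : Finset G, x ∈ ZS (Subgroup.normalClosure (S : Set G)) a) : x = 1 := by
  classical
  by_contra hx1
  haveI : Fact p.Prime := ⟨h.prime⟩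
  let N : Finset G → Subgroup G := fun S => Subgroup.normalClosure (S : Set G)
  have hN : ∀ S, (N S).Normal := fun S => Subgroup.normalClosure_normal
  have hmono : ∀ S T : Finset G, S ⊆ T → N S ≤ N T := fun S T hST =>
    Subgroup.normalClosure_mono (by exact_mod_cast hST)
  have hd : Directed (· ≤ ·) N := fun S T =>
    ⟨S ∪ T, hmono _ _ Finset.subset_union_left, hmono _ _ Finset.subset_union_right⟩
  have hmem : ∀ (S : Finset G) (y : G), y ∈ S → y ∈ N S := fun S y hy =>
    Subgroup.subset_normalClosure hy
  have htop : ⨆ S, N S = ⊤ := by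
    rw [eq_top_iff]
    intro y _
    exact Subgroup.mem_iSup_of_mem {y} (hmem _ _ (Finset.mem_singleton_self y))
  have hx0 : N {x} ≠ ⊥ := by
    intro h0
    have := hmem {x} x (Finset.mem_singleton_self x)
    rw [h0, Subgroup.mem_bot] at this
    exact hx1 this
  have hxt : N {x} ≠ ⊤ := by
    intro h0
    have h1 : x ∈ ZS (N {x}) a := hx {x}
    rw [h0, ZS_top_trivial hc a] at h1
    exact hx1 h1
  have hle : ∀ S, ∀ v ∈ N {x}, v ∈ ZS (N S) a := by
    intro S v hv
    haveI := hN S
    obtain ⟨H, hH, hHZ⟩ := ZS_normal (N S) a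
    have h1 : N {x} ≤ H := by
      refine Subgroup.normalClosure_le_normal ?_
      intro y hy
      rw [Finset.coe_singleton, Set.mem_singleton_iff] at hy
      rw [hy, hHZ]
      exact hx S
    rw [← hHZ]
    exact h1 hv
  obtain ⟨V, hVn, hVN, hVb, hVc, hVp⟩ := exists_elementary h.pgroup (N {x}) (hN _) hx0
    (h.proper _ hxt).1
  have hle := fixed_of_zom h hc N hN hd htop V hVc hVp a (fun S v hv => hle S v (hVN hv))
  rw [hc, le_bot_iff] at hle
  exact hVb hle

/-- The local theorem: every noncentral element `x` of an example lies outside `Z_{ωa}(N)` for the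
normal closure `N` of some finite set containing `x`. -/
theorem loc (h : Exm p G) (a : ℕ) (x : G) (hx : x ∉ Subgroup.center G) :
    ∃ (S : Finset G) (_ : x ∈ S) (hxN : x ∈ Subgroup.normalClosure (S : Set G)),
      (⟨x, hxN⟩ : Subgroup.normalClosure (S : Set G)) ∉
        Zom (Subgroup.normalClosure (S : Set G)) a := by
  classical
  by_contra hcon
  push Not at hcon
  haveI := h.isPerfect
  have hc : Subgroup.center (G ⧸ Subgroup.center G) = ⊥ :=
    Group.IsPerfect.center_quotient_center_eq_bot G
  have hne : Subgroup.center G ≠ ⊤ := fun h0 => hx (h0 ▸ Subgroup.mem_top x)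
  haveI : Nontrivial (G ⧸ Subgroup.center G) := QuotientGroup.nontrivial_iff.2 hne
  set q := QuotientGroup.mk' (Subgroup.center G) with hq
  have hqs : Function.Surjective q := QuotientGroup.mk'_surjective _
  have hQ : Exm p (G ⧸ Subgroup.center G) := h.map q hqs
  have h1 := loc_center_trivial hQ hc a (q x) (by
    intro S
    let T : Finset G := insert x (S.image (Function.surjInv hqs))
    have hxT : x ∈ T := Finset.mem_insert_self _ _
    have hxN : x ∈ Subgroup.normalClosure (T : Set G) := Subgroup.subset_normalClosure hxT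
    have h2 := hcon T hxT hxN
    let f : Subgroup.normalClosure (T : Set G) →*
        (Subgroup.normalClosure (T : Set G)).map q := q.subgroupMap _
    have hf : Function.Surjective f := q.subgroupMap_surjective _
    have h3 := Zom_ZS _ a _ (Zom_map f hf a _ h2)
    refine ZS_anti ?_ a h3
    rw [Subgroup.map_normalClosure _ q hqs]
    refine Subgroup.normalClosure_mono ?_
    intro s hs
    refine ⟨Function.surjInv hqs s, ?_, Function.surjInv_eq hqs s⟩
    exact Finset.mem_insert_of_mem (Finset.mem_image_of_mem _ hs))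
  exact hx ((QuotientGroup.eq_one_iff x).1 h1)

/-- The local theorem for all nontrivial images. -/
theorem loc_main (h : Exm p G) (M : Subgroup G) [M.Normal] (hM : M ≠ ⊤) :
    Subgroup.center (G ⧸ M) ≠ ⊤ ∧ ∀ (a : ℕ) (x : G ⧸ M), x ∉ Subgroup.center (G ⧸ M) →
    ∃ (S : Finset (G ⧸ M)) (_ : x ∈ S)
      (hxN : x ∈ Subgroup.normalClosure (S : Set (G ⧸ M))),
      (⟨x, hxN⟩ : Subgroup.normalClosure (S : Set (G ⧸ M))) ∉
        Zom (Subgroup.normalClosure (S : Set (G ⧸ M))) a := by
  haveI : Nontrivial (G ⧸ M) := QuotientGroup.nontrivial_iff.2 hM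
  have hQ := h.map (QuotientGroup.mk' M) (QuotientGroup.mk'_surjective M)
  refine ⟨?_, fun a x hx => loc hQ a x hx⟩
  intro h0
  refine hQ.not_solvable ?_
  letI : CommGroup (G ⧸ M) :=
    { (inferInstance : Group (G ⧸ M)) with
      mul_comm := fun x y => by
        have : y ∈ Subgroup.center (G ⧸ M) := h0 ▸ Subgroup.mem_top y
        exact Subgroup.mem_center_iff.1 this x }
  infer_instance

end Pool.Agent.HL3218
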