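import Mathlib
import Pool.Agent.Work.MP_3218de_al.HL.Loc

set_option autoImplicit false
set_option linter.style.haveILetI false

/-!
# MP_3218de_al: residually nilpotent actions
-/

namespace Pool.Agent.HL3218

open MonoidAlgebra
open scoped commutatorElement

section ideals

variable {k : Type} [Field k] {G : Type} [Group G]

/-- the (left, in fact two-sided for normal `N`) ideal generated by the products of `n` factors
`y - 1`, `y ∈ N` -/
noncomputable def JN (k : Type) [Field k] {G : Type} [Group G] (N : Subgroup G) (n : ℕ) :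
    Ideal (MonoidAlgebra k G) :=
  Ideal.span {s | ∃ (l : List G) (r : MonoidAlgebra k G), (∀ y ∈ l, y ∈ N) ∧ l.length = n ∧
    s = (l.map (fun y => gg k y - 1)).prod * r}

theorem JN_anti (N : Subgroup G) {n m : ℕ} (h : n ≤ m) : JN k N m ≤ JN k N n := by
  refine Ideal.span_le.2 ?_
  rintro _ ⟨l, r, hl, hlm, rfl⟩
  have h1 : (l.map (fun y => gg k y - 1)).prod =
      ((l.take n).map (fun y => gg k y - 1)).prod *
        ((l.drop n).map (fun y => gg k y - 1)).prod := by
    rw [← List.prod_append, ← List.map_append, List.take_append_drop]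
  rw [h1, mul_assoc]
  exact Ideal.subset_span ⟨l.take n, _, fun y hy => hl y (List.mem_of_mem_take hy),
    by simp [hlm, h], rfl⟩

theorem NilMod_sup (J : Ideal (MonoidAlgebra k G)) (N : Subgroup G) (n : ℕ) :
    NilMod (J ⊔ JN k N n) N n := fun l hl hln r =>
  Submodule.mem_sup_right (Ideal.subset_span ⟨l, r, hl, hln, rfl⟩)

theorem WW_mono_left {J J' : Ideal (MonoidAlgebra k G)} (h : J ≤ J') (H : Subgroup G) :
    WW J H ≤ WW J' H :=
  WW_le J H _ (fun _ hr => ideal_le_WW J' H (h hr)) (fun _ hg => gg_mem_WW J' H hg)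

end ideals

variable {p : ℕ} {G : Type} [Group G]

/-- no proper subgroup has finite index in all members of the chain -/
theorem Exm.no_cofinite (h : Exm p G) {ι : Type} [Nonempty ι]
    (N : ι → Subgroup G) (hN : ∀ i, (N i).Normal) (hd : Directed (· ≤ ·) N)
    (htop : ⨆ i, N i = ⊤) (K : Subgroup G) (hK : K ≠ ⊤)
    (hind : ∀ i, (K.subgroupOf (N i)).FiniteIndex) : False := by
  obtain ⟨d, hd'⟩ := (solvable_iff K).1 (h.proper K hK).1
  haveI := h.nontriv
  have hsol : ∀ i, Dn d ⁅N i, (⊤ : Subgroup G)⁆ = ⊥ := by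
    intro i
    haveI := hN i
    obtain ⟨H, h1, h2, h3, h4⟩ := km_normal (N i) K d hd' (hind i)
    haveI := h1
    have hHt : H ≠ ⊤ := by
      intro ht
      rw [ht, h.Dn_top] at h4
      exact top_ne_bot h4
    rw [← le_bot_iff, ← h4]
    exact Dn_mono (h.comm_le_of_finite (N i) H h3 hHt) d
  have hA : Directed (· ≤ ·) (fun i => ⁅N i, (⊤ : Subgroup G)⁆) := fun i j => by
    obtain ⟨l, hi, hj⟩ := hd i j
    exact ⟨l, Subgroup.commutator_mono hi le_rfl, Subgroup.commutator_mono hj le_rfl⟩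
  have hAt : (⊤ : Subgroup G) ≤ ⨆ i, ⁅N i, (⊤ : Subgroup G)⁆ := by
    have e : ⁅(⊤ : Subgroup G), (⊤ : Subgroup G)⁆ = ⊤ := h.perfect
    have h5 : ⁅(⊤ : Subgroup G), (⊤ : Subgroup G)⁆ ≤ ⨆ i, ⁅N i, (⊤ : Subgroup G)⁆ := by
      rw [Subgroup.commutator_le]
      intro x hx y hy
      rw [← htop] at hx
      obtain ⟨i, hi⟩ := (Subgroup.mem_iSup_of_directed hd).1 hx
      exact Subgroup.mem_iSup_of_mem i (Subgroup.commutator_mem_commutator hi hy)
    rwa [e] at h5
  have h5 := (Dn_mono hAt d).trans (Dn_iSup _ hA d)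
  rw [h.Dn_top] at h5
  have h6 : (⨆ i, Dn d ⁅N i, (⊤ : Subgroup G)⁆) ≤ ⊥ := iSup_le fun i => (hsol i).le
  exact top_ne_bot (le_bot_iff.1 (h5.trans h6))

/-- pigeonhole: a finite subspace does not disturb closed ideals -/
theorem exists_level [Fact p.Prime] (J : Ideal (MonoidAlgebra (ZMod p) G)) (N F : Subgroup G)
    [hF : Finite F] (z : MonoidAlgebra (ZMod p) G) (hz : z ∉ WW J F)
    (hJ : ∀ r, (∀ n, r ∈ J ⊔ JN (ZMod p) N n) → r ∈ J) :
    ∃ n, z ∉ WW (J ⊔ JN (ZMod p) N n) F := by
  by_contra hcon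
  push Not at hcon
  have h1 : ∀ n, ∃ w : Submodule.span (ZMod p) ((fun g => gg (ZMod p) g) '' (F : Set G)),
      z - w ∈ J ⊔ JN (ZMod p) N n := by
    intro n
    have h2 := hcon n
    unfold WW at h2
    obtain ⟨j, hj, w, hw, hjw⟩ := Submodule.mem_sup.1 h2
    refine ⟨⟨w, hw⟩, ?_⟩
    have h3 : z - w = j := by rw [← hjw]; abel
    show z - w ∈ _
    rw [h3]
    exact hj
  choose w hw using h1
  haveI : Finite (Submodule.span (ZMod p) ((fun g => gg (ZMod p) g) '' (F : Set G))) := by
    have hfin : ((fun g => gg (ZMod p) g) '' (F : Set G)).Finite := (Set.toFinite _).image _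
    haveI := Module.Finite.span_of_finite (ZMod p) hfin
    exact Module.finite_of_finite (ZMod p)
  obtain ⟨y, hy⟩ := Finite.exists_infinite_fiber w
  have hy' : (w ⁻¹' {y}).Infinite := Set.infinite_coe_iff.1 hy
  have h2 : z - y ∈ J := by
    refine hJ _ fun m => ?_
    obtain ⟨n, hn, hmn⟩ := hy'.exists_gt m
    have h3 : w n = y := hn
    have h4 := hw n
    rw [h3] at h4
    exact (sup_le_sup_left (JN_anti N hmn.le) J) h4
  apply hz
  have h5 : z = (z - y) + y := by abel
  rw [h5]
  exact Submodule.add_mem _ (ideal_le_WW J F h2) (Submodule.mem_sup_right y.2)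

/-- Theorem R, closed form: it suffices that the left ideal `J` is closed in the topologies given
by the powers of the augmentation ideals of the members of the chain. -/
theorem thmRplus (h : Exm p G) [Fact p.Prime] (hc : Subgroup.center G = ⊥) {ι : Type}
    [Nonempty ι] (N : ι → Subgroup G) (hN : ∀ i, (N i).Normal) (hd : Directed (· ≤ ·) N)
    (htop : ⨆ i, N i = ⊤)
    (J : Ideal (MonoidAlgebra (ZMod p) G))
    (hJ : ∀ i r, (∀ n, r ∈ J ⊔ JN (ZMod p) (N i) n) → r ∈ J) (g : G) :
    gg (ZMod p) g - 1 ∈ J := by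
  by_contra hz
  haveI := h.countable
  haveI := h.nontriv
  obtain ⟨s, K, hs, hK, hsK⟩ := bookkeep hc (fun H hb ht => h.exists_central H hb ht)
    (fun H => gg (ZMod p) g - 1 ∉ WW J H)
    (fun h0 => hz (WW_bot h J g h0))
    (by
      rw [not_not]
      refine Submodule.sub_mem _ (gg_mem_WW J _ (Subgroup.mem_top g)) ?_
      rw [← gg_one]
      exact gg_mem_WW J _ (Subgroup.mem_top 1))
    (by
      intro c hc hn h0
      obtain ⟨n, hn'⟩ := mem_WW_iSup J c hc h0
      exact hn n hn')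
  simp only [not_not] at hsK
  haveI : Finite (Subgroup.closure (s : Set G)) := h.locfin s
  refine h.no_cofinite N hN hd htop K hK (fun i => ?_)
  haveI := hN i
  obtain ⟨n, hn⟩ := exists_level J (N i) (Subgroup.closure (s : Set G)) _ hs (hJ i)
  exact alg_main h.torsion (J ⊔ JN (ZMod p) (N i) n) _ (Subgroup.closure (s : Set G)) hn K
    (fun x hx => WW_mono_left le_sup_left _ (hsK x hx)) (N i) n (NilMod_sup J (N i) n)

section modules

variable {M : Type} [AddCommGroup M] [Module (ZMod p) M] {ρ : Representation (ZMod p) G M}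

theorem prod_mem_seq [Fact p.Prime] (N : Subgroup G) (P : ℕ → Submodule (ZMod p) M)
    (hP : ∀ n, ∀ y ∈ N, ∀ v ∈ P n, ρ y v - v ∈ P (n + 1)) (m : ℕ) (w : M) (hw : w ∈ P m) :
    ∀ (l : List G), (∀ y ∈ l, y ∈ N) →
      ρ.asAlgebraHom (l.map (fun y => gg (ZMod p) y - 1)).prod w ∈ P (m + l.length)
  | [], _ => by
    simpa using hw
  | y :: l, hl => by
    have h1 := prod_mem_seq N P hP m w hw l (fun z hz => hl z (List.mem_cons_of_mem _ hz))
    rw [List.map_cons, List.prod_cons, map_mul, Module.End.mul_apply, map_sub, map_one,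
      LinearMap.sub_apply, asAlg_gg, Module.End.one_apply, List.length_cons, ← add_assoc]
    exact hP _ y (hl y List.mem_cons_self) _ h1

/-- A module on which all members of the chain act residually nilpotently is trivial. -/
theorem nnplus (h : Exm p G) [Fact p.Prime] (hc : Subgroup.center G = ⊥) {ι : Type}
    [Nonempty ι] (N : ι → Subgroup G) (hN : ∀ i, (N i).Normal) (hd : Directed (· ≤ ·) N)
    (htop : ⨆ i, N i = ⊤)
    (hP : ∀ i, ∃ P : ℕ → Submodule (ZMod p) M, (∀ n, Stab ρ (P n)) ∧ P 0 = ⊤ ∧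
      (∀ n, ∀ y ∈ N i, ∀ v ∈ P n, ρ y v - v ∈ P (n + 1)) ∧ ∀ v, (∀ n, v ∈ P n) → v = 0)
    (v : M) (g : G) : ρ g v = v := by
  have hA : Stab ρ (⊥ : Submodule (ZMod p) M) := by
    intro g w hw
    rw [Submodule.mem_bot] at hw ⊢
    rw [hw, map_zero]
  have h1 := thmRplus h hc N hN hd htop (annJ hA v) (fun i r hr => by
    obtain ⟨P, h1, h2, h3, h4⟩ := hP i
    have h5 : ∀ n, annJ hA v ⊔ JN (ZMod p) (N i) n ≤ annJ (h1 n) v := by
      intro n
      refine sup_le ?_ (Ideal.span_le.2 ?_)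
      · intro s hs
        have hs' : ρ.asAlgebraHom s v ∈ (⊥ : Submodule (ZMod p) M) := hs
        rw [Submodule.mem_bot] at hs'
        show ρ.asAlgebraHom s v ∈ P n
        rw [hs']
        exact (P n).zero_mem
      · rintro _ ⟨l, s, hl, hln, rfl⟩
        show ρ.asAlgebraHom _ v ∈ P n
        rw [map_mul, Module.End.mul_apply]
        have h6 := prod_mem_seq (N i) P h3 0 (ρ.asAlgebraHom s v)
          (by rw [h2]; exact Submodule.mem_top) l hl
        rwa [zero_add, hln] at h6
    show ρ.asAlgebraHom r v ∈ (⊥ : Submodule (ZMod p) M)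
    rw [Submodule.mem_bot]
    exact h4 _ (fun n => h5 n (hr n))) g
  have h2 : ρ.asAlgebraHom (gg (ZMod p) g - 1) v ∈ (⊥ : Submodule (ZMod p) M) := h1
  rw [map_sub, map_one, LinearMap.sub_apply, asAlg_gg, Module.End.one_apply, Submodule.mem_bot,
    sub_eq_zero] at h2
  exact h2

end modules

theorem nn_abs2 (h : Exm p G) [hpf : Fact p.Prime] (hc : Subgroup.center G = ⊥) {ι : Type}
    [Nonempty ι] (N : ι → Subgroup G) (hN : ∀ i, (N i).Normal) (hd : Directed (· ≤ ·) N)
    (htop : ⨆ i, N i = ⊤) {W : Type} [AddCommGroup W] [Module (ZMod p) W]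
    (c : G → W →+ W) (hc1 : ∀ v, c 1 v = v) (hcm : ∀ g k v, c (g * k) v = c g (c k v))
    (e : W → G) (he : ∀ w, e w = 1 → w = 0) (hadd : ∀ w w', e (w + w') = e w * e w')
    (hec : ∀ g v, e (c g v) = g * e v * g⁻¹)
    (hW : ∀ i, ∃ T : ℕ → Subgroup G, (∀ n, (T n).Normal) ∧ (∀ v, e v ∈ T 0) ∧
      (∀ n, ⁅T n, N i⁆ ≤ T (n + 1)) ∧ ∀ x, (∀ n, x ∈ T n) → x = 1)
    (v : W) : e v ∈ Subgroup.center G := by
  have he0 : e 0 = 1 := by
    have := hadd 0 0
    rw [add_zero] at this
    exact left_eq_mul.1 this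
  have hneg : ∀ w, e (-w) = (e w)⁻¹ := by
    intro w
    rw [eq_inv_iff_mul_eq_one, ← hadd, neg_add_cancel, he0]
  rw [Subgroup.mem_center_iff]
  intro g
  have h1 := nnplus (ρ := mkRep (p := p) c hc1 hcm) h hc N hN hd htop (fun i => by
    obtain ⟨T, h1, h2, h3, h4⟩ := hW i
    let A : ℕ → AddSubgroup W := fun n =>
      { carrier := {w | e w ∈ T n}
        add_mem' := by
          intro a b ha hb
          show e (a + b) ∈ T n
          rw [hadd]
          exact mul_mem ha hb
        zero_mem' := by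
          show e 0 ∈ T n
          rw [he0]
          exact one_mem _
        neg_mem' := by
          intro a ha
          show e (-a) ∈ T n
          rw [hneg]
          exact inv_mem ha }
    refine ⟨fun n => AddSubgroup.toZModSubmodule p (A n), ?_, ?_, ?_, ?_⟩
    · intro n g w hw
      show e (c g w) ∈ T n
      rw [hec]
      exact (h1 n).conj_mem _ hw g
    · rw [eq_top_iff]
      intro w _
      exact h2 w
    · intro n y hy w hw
      show e (c y w - w) ∈ T (n + 1)
      rw [sub_eq_add_neg, hadd, hneg, hec]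
      refine h3 n ?_
      rw [Subgroup.commutator_comm]
      exact Subgroup.commutator_mem_commutator hy hw
    · intro w hw
      exact he w (h4 _ (fun n => hw n))) v g
  have h2 := hec g v
  have h4 : c g v = v := h1
  rw [h4] at h2
  rw [eq_mul_inv_iff_mul_eq] at h2
  exact h2.symm

theorem nn_abs (h : Exm p G) [hpf : Fact p.Prime] (hc : Subgroup.center G = ⊥) {ι : Type}
    [Nonempty ι] (N : ι → Subgroup G) (hN : ∀ i, (N i).Normal) (hd : Directed (· ≤ ·) N)
    (htop : ⨆ i, N i = ⊤) {V : Type} [CommGroup V] (hp : ∀ v : V, v ^ p = 1)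
    (c : G → V →* V) (hc1 : ∀ v, c 1 v = v) (hcm : ∀ g k v, c (g * k) v = c g (c k v))
    (e : V →* G) (he : Function.Injective e) (hec : ∀ g v, e (c g v) = g * e v * g⁻¹)
    (hW : ∀ i, ∃ T : ℕ → Subgroup G, (∀ n, (T n).Normal) ∧ (∀ v, e v ∈ T 0) ∧
      (∀ n, ⁅T n, N i⁆ ≤ T (n + 1)) ∧ ∀ x, (∀ n, x ∈ T n) → x = 1)
    (v : V) : e v ∈ Subgroup.center G := by
  letI : Module (ZMod p) (Additive V) := AddCommGroup.zmodModule (n := p) (fun x => by
    have : (Additive.toMul x : V) ^ p = 1 := hp _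
    exact congrArg Additive.ofMul this)
  exact nn_abs2 h hc N hN hd htop (W := Additive V) (fun g => MonoidHom.toAdditive (c g))
    (fun v => congrArg Additive.ofMul (hc1 v.toMul))
    (fun g k v => congrArg Additive.ofMul (hcm g k v.toMul))
    (fun w => e w.toMul) (fun w hw => by
      have h1 : w.toMul = (1 : V) := he (by rw [map_one]; exact hw)
      exact h1)
    (fun w w' => map_mul e w.toMul w'.toMul) (fun g w => hec g w.toMul)
    (fun i => by
      obtain ⟨T, h1, h2, h3, h4⟩ := hW i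
      exact ⟨T, h1, fun v => h2 v.toMul, h3, h4⟩) (Additive.ofMul v)

/-- A normal elementary abelian subgroup on which all members of an ascending chain of normal
subgroups with union `G` act residually nilpotently is central. -/
theorem nn_group (h : Exm p G) [hpf : Fact p.Prime] (hc : Subgroup.center G = ⊥) {ι : Type}
    [Nonempty ι] (N : ι → Subgroup G) (hN : ∀ i, (N i).Normal) (hd : Directed (· ≤ ·) N)
    (htop : ⨆ i, N i = ⊤) (V : Subgroup G) [hVn : V.Normal]
    (hV : ∀ x ∈ V, ∀ y ∈ V, x * y = y * x) (hp : ∀ x ∈ V, x ^ p = 1)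
    (hW : ∀ i, ∃ T : ℕ → Subgroup G, (∀ n, (T n).Normal) ∧ V ≤ T 0 ∧
      (∀ n, ⁅T n, N i⁆ ≤ T (n + 1)) ∧ ∀ x, (∀ n, x ∈ T n) → x = 1) :
    V ≤ Subgroup.center G := by
  letI : CommGroup V :=
    { (inferInstance : Group V) with
      mul_comm := fun x y => Subtype.ext (hV x x.2 y y.2) }
  intro v hv
  exact nn_abs h hc N hN hd htop (V := V) (fun v => Subtype.ext (hp v v.2))
    (fun g => ((MulAut.conjNormal g : MulAut V) : V →* V))
    (fun v => by
      show (MulAut.conjNormal (1 : G) : MulAut V) v = v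
      rw [map_one]
      rfl)
    (fun g k v => by
      show (MulAut.conjNormal (g * k) : MulAut V) v = (MulAut.conjNormal g : MulAut V)
            ((MulAut.conjNormal k : MulAut V) v)
      rw [map_mul]
      rfl) V.subtype V.subtype_injective (fun g v => MulAut.conjNormal_apply g v)
    (fun i => by
      obtain ⟨T, h1, h2, h3, h4⟩ := hW i
      exact ⟨T, h1, fun v => h2 v.2, h3, h4⟩) ⟨v, hv⟩

end Pool.Agent.HL3218
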