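import Mathlib
import Pool.Agent.Work.MP_3218de_al.HL.RN

set_option autoImplicit false
set_option linter.style.haveILetI false

/-!
# MP_3218de_al: lower and upper lengths of normal closures of finite sets
-/

namespace Pool.Agent.HL3218

open scoped commutatorElement

section basic

variable {G : Type} [Group G]

/-- the lower central series of `L` relative to `N`: `L`, `[L, N]`, `[L, N, N]`, ... -/
def lcs (N L : Subgroup G) : ℕ → Subgroup G
  | 0 => L
  | n + 1 => ⁅lcs N L n, N⁆

/-- the intersection of the lower central series of `L` relative to `N` -/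
def Gm (N L : Subgroup G) : Subgroup G := ⨅ n, lcs N L n

theorem lcs_normal (N L : Subgroup G) (hN : N.Normal) (hL : L.Normal) : ∀ n, (lcs N L n).Normal
  | 0 => hL
  | n + 1 => by
    haveI := lcs_normal N L hN hL n
    exact Subgroup.commutator_normal _ _

theorem Gm_normal (N L : Subgroup G) (hN : N.Normal) (hL : L.Normal) : (Gm N L).Normal :=
  Subgroup.normal_iInf_normal (fun n => lcs_normal N L hN hL n)

theorem lcs_mono {N N' L L' : Subgroup G} (hN : N ≤ N') (hL : L ≤ L') : ∀ n,
    lcs N L n ≤ lcs N' L' n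
  | 0 => hL
  | n + 1 => Subgroup.commutator_mono (lcs_mono hN hL n) hN

theorem Gm_mono {N N' L L' : Subgroup G} (hN : N ≤ N') (hL : L ≤ L') : Gm N L ≤ Gm N' L' :=
  iInf_mono fun n => lcs_mono hN hL n

theorem Gm_le (N L : Subgroup G) : Gm N L ≤ L := iInf_le (fun n => lcs N L n) 0

theorem iter_Gm_mono {N N' : Subgroup G} (hN : N ≤ N') : ∀ (a : ℕ) (L L' : Subgroup G), L ≤ L' →
    (Gm N)^[a] L ≤ (Gm N')^[a] L'
  | 0, _, _, h => h
  | a + 1, L, L', h => by
    rw [Function.iterate_succ_apply, Function.iterate_succ_apply]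
    exact iter_Gm_mono hN a _ _ (Gm_mono hN h)

theorem lcs_map {G' : Type} [Group G'] (f : G →* G') (N L : Subgroup G) : ∀ n,
    (lcs N L n).map f = lcs (N.map f) (L.map f) n
  | 0 => rfl
  | n + 1 => by
    show (⁅lcs N L n, N⁆).map f = ⁅lcs (N.map f) (L.map f) n, N.map f⁆
    rw [Subgroup.map_commutator, lcs_map f N L n]

theorem iter_ZS_step (N : Subgroup G) {A : Set N} {B : Set G} (h : ∀ x : N, (x : G) ∈ B → x ∈ A) :
    ∀ m : ℕ, ∀ x : N, (x : G) ∈ (stepS N)^[m] B → x ∈ step^[m] A
  | 0 => h
  | m + 1 => by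
    rw [Function.iterate_succ_apply', Function.iterate_succ_apply']
    intro x hx y
    exact iter_ZS_step N h m _ (hx y y.2)

theorem ZS_Zom (N : Subgroup G) : ∀ (a : ℕ) (x : N), (x : G) ∈ ZS N a → x ∈ Zom N a
  | 0 => by
    intro x hx
    have : (x : G) = 1 := hx
    exact Subtype.ext this
  | a + 1 => by
    intro x hx
    obtain ⟨m, hm⟩ := Set.mem_iUnion.1 hx
    exact Set.mem_iUnion.2 ⟨m, iter_ZS_step N (ZS_Zom N a) m x hm⟩

end basic

variable {p : ℕ} {G : Type} [Group G]

/-- an element in `Z_{ωb}` relative to the normal closures of all finite sets is central -/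
theorem central_of_ZS (h : Exm p G) (b : ℕ) (y : G)
    (hy : ∀ S : Finset G, y ∈ ZS (Subgroup.normalClosure (S : Set G)) b) :
    y ∈ Subgroup.center G := by
  by_contra hc
  obtain ⟨S, _, hyN, hyS⟩ := loc h b y hc
  exact hyS (ZS_Zom _ b ⟨y, hyN⟩ (hy S))

/-- one step down -/
theorem low_step (h : Exm p G) {ι : Type} [Nonempty ι] (N : ι → Subgroup G)
    (hN : ∀ i, (N i).Normal) (hd : Directed (· ≤ ·) N) (htop : ⨆ i, N i = ⊤)
    (L : Subgroup G) (hL : L.Normal) (hLt : L ≠ ⊤) (hG : ∀ i, Gm (N i) L ≤ Subgroup.center G) :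
    L ≤ Subgroup.center G := by
  by_contra hcon
  haveI : Fact p.Prime := ⟨h.prime⟩
  haveI := h.isPerfect
  have hc : Subgroup.center (G ⧸ Subgroup.center G) = ⊥ :=
    Group.IsPerfect.center_quotient_center_eq_bot G
  have hne : Subgroup.center G ≠ ⊤ := fun h0 => hcon (h0 ▸ le_top)
  haveI : Nontrivial (G ⧸ Subgroup.center G) := QuotientGroup.nontrivial_iff.2 hne
  set q := QuotientGroup.mk' (Subgroup.center G) with hq
  have hqs : Function.Surjective q := QuotientGroup.mk'_surjective _
  have hqz : ∀ z ∈ Subgroup.center G, q z = 1 := fun z hz => (QuotientGroup.eq_one_iff z).2 hz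
  have hqz' : ∀ z, q z = 1 → z ∈ Subgroup.center G := fun z hz => (QuotientGroup.eq_one_iff z).1 hz
  have hQ : Exm p (G ⧸ Subgroup.center G) := h.map q hqs
  have hLn : (L.map q).Normal := hL.map q hqs
  have hLb : L.map q ≠ ⊥ := by
    intro h0
    apply hcon
    intro x hx
    apply hqz'
    have : q x ∈ L.map q := Subgroup.mem_map_of_mem q hx
    rw [h0, Subgroup.mem_bot] at this
    exact this
  have hLs : Group.IsSolvable (L.map q) := by
    rw [solvable_iff]
    obtain ⟨d, hd⟩ := (solvable_iff L).1 (h.proper L hLt).1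
    exact ⟨d, by rw [← Dn_map, hd, Subgroup.map_bot]⟩
  obtain ⟨V, hVn, hVL, hVb, hVc, hVp⟩ := exists_elementary hQ.pgroup (L.map q) hLn hLb hLs
  have key := nn_group hQ hc (fun i => (N i).map q) (fun i => (hN i).map q hqs)
    (fun i j => by
      obtain ⟨l, hi, hj⟩ := hd i j
      exact ⟨l, Subgroup.map_mono hi, Subgroup.map_mono hj⟩)
    (by rw [← Subgroup.map_iSup, htop, Subgroup.map_top_of_surjective q hqs]) V hVc hVp
    (fun i => by
      refine ⟨fun n => (lcs (N i) L n).map q, fun n => (lcs_normal _ _ (hN i) hL n).map q hqs,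
        hVL, ?_, ?_⟩
      · intro n
        rw [← Subgroup.map_commutator]
        exact le_rfl
      · intro x hx
        obtain ⟨x, rfl⟩ := hqs x
        have h1 : ∀ g : G, ⁅x, g⁆ ∈ Subgroup.center G := by
          intro g
          refine hG i ?_
          unfold Gm
          rw [Subgroup.mem_iInf]
          intro n
          haveI := lcs_normal (N i) L (hN i) hL n
          obtain ⟨l, hl, hlx⟩ := Subgroup.mem_map.1 (hx n)
          have hz : l⁻¹ * x ∈ Subgroup.center G := by
            apply hqz'
            rw [map_mul, map_inv, hlx, inv_mul_cancel]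
          have h2 : ⁅x, g⁆ = ⁅l, g⁆ := by
            have h3 : g * (l⁻¹ * x) = (l⁻¹ * x) * g := Subgroup.mem_center_iff.1 hz g
            have h4 : x = l * (l⁻¹ * x) := by group
            rw [commutatorElement_def, commutatorElement_def]
            have h5 : x * g = l * g * (l⁻¹ * x) := by
              calc x * g = l * ((l⁻¹ * x) * g) := by group
                _ = l * (g * (l⁻¹ * x)) := by rw [h3]
                _ = l * g * (l⁻¹ * x) := by group
            rw [h5]
            group
          rw [h2, commutatorElement_def]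
          have h6 : l * g * l⁻¹ * g⁻¹ = l * (g * l⁻¹ * g⁻¹) := by group
          rw [h6]
          exact mul_mem hl (this.conj_mem _ (inv_mem hl) g)
        have h2 : q x ∈ Subgroup.center (G ⧸ Subgroup.center G) := by
          rw [Subgroup.mem_center_iff]
          intro y
          obtain ⟨g, rfl⟩ := hqs y
          have h3 := hqz _ (h1 g)
          rw [map_commutatorElement, commutatorElement_eq_one_iff_mul_comm] at h3
          exact h3.symm
        rw [hc, Subgroup.mem_bot] at h2
        exact h2)
  rw [hc, le_bot_iff] at key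
  exact hVb key

/-- finitely many steps down -/
theorem low_ind (h : Exm p G) {ι : Type} [Nonempty ι] (N : ι → Subgroup G)
    (hN : ∀ i, (N i).Normal) (hd : Directed (· ≤ ·) N) (htop : ⨆ i, N i = ⊤) :
    ∀ (a : ℕ) (L : Subgroup G), L.Normal → L ≠ ⊤ →
      (∀ i, (Gm (N i))^[a] L ≤ Subgroup.center G) → L ≤ Subgroup.center G
  | 0, L, _, _, hG => hG (Classical.arbitrary ι)
  | a + 1, L, hL, hLt, hG => by
    refine low_step h N hN hd htop L hL hLt fun j => ?_
    refine low_ind h N hN hd htop a (Gm (N j) L) (Gm_normal _ _ (hN j) hL) ?_ fun i => ?_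
    · intro h0
      exact hLt (top_le_iff.1 (h0 ▸ Gm_le (N j) L))
    · obtain ⟨l, hi, hj⟩ := hd i j
      refine (iter_Gm_mono hi a _ _ (Gm_mono hj le_rfl)).trans ?_
      have := hG l
      rwa [Function.iterate_succ_apply] at this

/-- the main theorem on the lower and the upper length -/
theorem mixed (h : Exm p G) (a b : ℕ) (x : G) (hx : x ∉ Subgroup.center G) :
    ∃ S : Finset G, x ∈ S ∧
      ∃ y ∈ (Gm (Subgroup.normalClosure (S : Set G)))^[a] (Subgroup.normalClosure {x}),
        y ∉ ZS (Subgroup.normalClosure (S : Set G)) b := by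
  classical
  by_contra hcon
  push Not at hcon
  let N : Finset G → Subgroup G := fun S => Subgroup.normalClosure (S : Set G)
  have hN : ∀ S, (N S).Normal := fun S => Subgroup.normalClosure_normal
  have hmono : ∀ S T : Finset G, S ⊆ T → N S ≤ N T := fun S T hST =>
    Subgroup.normalClosure_mono (by exact_mod_cast hST)
  have hd : Directed (· ≤ ·) N := fun S T =>
    ⟨S ∪ T, hmono _ _ Finset.subset_union_left, hmono _ _ Finset.subset_union_right⟩
  have htop : ⨆ S, N S = ⊤ := by
    rw [eq_top_iff]
    intro y _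
    refine Subgroup.mem_iSup_of_mem {y} (Subgroup.subset_normalClosure ?_)
    exact Finset.mem_coe.2 (Finset.mem_singleton_self y)
  have hall : ∀ S : Finset G, (Gm (N S))^[a] (Subgroup.normalClosure {x}) ≤
      Subgroup.center G := by
    intro S y hy
    refine central_of_ZS h b y fun S' => ?_
    have h1 : y ∈ (Gm (N (insert x (S ∪ S'))))^[a] (Subgroup.normalClosure {x}) := by
      refine iter_Gm_mono (hmono _ _ ?_) a _ _ le_rfl hy
      exact (Finset.subset_union_left).trans (Finset.subset_insert _ _)
    have h2 := hcon _ (Finset.mem_insert_self x (S ∪ S')) y h1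
    refine ZS_anti (hmono S' _ ?_) b h2
    exact (Finset.subset_union_right).trans (Finset.subset_insert _ _)
  by_cases hLt : Subgroup.normalClosure ({x} : Set G) = ⊤
  · have h1 : ∀ a : ℕ, (Gm (⊤ : Subgroup G))^[a] ⊤ = ⊤ := by
      intro a
      have h2 : Gm (⊤ : Subgroup G) ⊤ = ⊤ := by
        have h3 : ∀ n, lcs (⊤ : Subgroup G) ⊤ n = ⊤ := by
          intro n
          induction n with
          | zero => rfl
          | succ n ih =>
            show ⁅lcs (⊤ : Subgroup G) ⊤ n, (⊤ : Subgroup G)⁆ = ⊤
            rw [ih]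
            exact h.perfect
        unfold Gm
        simp only [h3, iInf_const]
      induction a with
      | zero => rfl
      | succ a ih => rw [Function.iterate_succ_apply, h2, ih]
    apply hx
    have h2 := hall {x}
    have h3 : N {x} = ⊤ := by
      show Subgroup.normalClosure ((({x} : Finset G) : Set G)) = ⊤
      rw [Finset.coe_singleton, hLt]
    rw [h3, hLt, h1 a] at h2
    exact h2 (Subgroup.mem_top x)
  · exact hx (low_ind h N hN hd htop a _ Subgroup.normalClosure_normal hLt hall
      (Subgroup.subset_normalClosure (Set.mem_singleton x)))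

/-- the theorem for all nontrivial images -/
theorem mixed_main (h : Exm p G) (M : Subgroup G) [M.Normal] (hM : M ≠ ⊤) :
    Subgroup.center (G ⧸ M) ≠ ⊤ ∧ ∀ (a b : ℕ) (x : G ⧸ M), x ∉ Subgroup.center (G ⧸ M) →
      ∃ S : Finset (G ⧸ M), x ∈ S ∧
        ∃ y ∈ (Gm (Subgroup.normalClosure (S : Set (G ⧸ M))))^[a] (Subgroup.normalClosure {x}),
          y ∉ ZS (Subgroup.normalClosure (S : Set (G ⧸ M))) b := by
  haveI : Nontrivial (G ⧸ M) := QuotientGroup.nontrivial_iff.2 hM
  have hQ := h.map (QuotientGroup.mk' M) (QuotientGroup.mk'_surjective M)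
  exact ⟨(loc_main h M hM).1, fun a b x hx => mixed hQ a b x hx⟩

end Pool.Agent.HL3218
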